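import Pool.Agent.K7.H70.RC.G
import Pool.Agent.R430.Q12

/-!
# The Artin map of an extension of exponent two, without a condition on the different
-/

set_option autoImplicit false
set_option linter.unusedSectionVars false

open NumberField IsDedekindDomain WithZero

namespace Pool.Agent.K7.H70.RC

open Pool.Agent.R430
open Pool.Agent.Y688.QRec
open Pool.Agent.Y688 (dn dn_mem dn_surj)
open UniqueFactorizationMonoid (normalizedFactors)

section
variable {F K : Type} [Field F] [NumberField F] [Field K] [NumberField K] [Algebra F K] [IsGalois F K]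

/-- the value at an element with one dyadic factor -/
lemma XX_dyadic' {a : F} (ha : a ^ 2 = -3) {r : ℕ} (hF : Module.finrank ℚ F = 2 * r)
    (h2v : ∀ v : HeightOneSpectrum (𝓞 F), (2 : 𝓞 F) ∈ v.asIdeal →
      v.valuation F 2 = exp (-1 : ℤ)) (X : Gal(K/F) →* ℂˣ) (hX : ∀ σ, X σ ^ 2 = 1) {n : ℕ}
    (hno : Odd n)
    (hun : ∀ w : HeightOneSpectrum (𝓞 K), (n : 𝓞 F) ∉ (dn F w).asIdeal →
      ∀ σ : Gal(K/F), (∀ x : 𝓞 K, σ • x - x ∈ w.asIdeal) → σ = 1)
    {β : 𝓞 F} (hβ0 : β ≠ 0) (hβ : (n : 𝓞 F) ∣ β - 1)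
    (hcase : IsCoprime β 2 ∨ ∃ P C : Ideal (𝓞 F), P.IsPrime ∧ P ≠ ⊥ ∧ (2 : 𝓞 F) ∈ P ∧
      IsCoprime (Ideal.span {(2 : 𝓞 F)}) C ∧ Ideal.span {β} = P * C) :
    XX X (Ideal.span {β}) = 1 := by
  obtain ⟨m, hm⟩ := hno
  have hn2 : ∀ P : Ideal (𝓞 F), P ≠ ⊤ → (2 : 𝓞 F) ∈ P → (n : 𝓞 F) ∉ P := by
    intro P hP h2 hn
    apply hP
    rw [Ideal.eq_top_iff_one]
    have : (1 : 𝓞 F) = (n : 𝓞 F) - 2 * (m : 𝓞 F) := by
      rw [hm]
      push_cast
      ring
    rw [this]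
    exact P.sub_mem hn (P.mul_mem_right _ h2)
  have hun2 : ∀ w : HeightOneSpectrum (𝓞 K), (2 : 𝓞 F) ∈ (dn F w).asIdeal →
      ∀ σ : Gal(K/F), (∀ x : 𝓞 K, σ • x - x ∈ w.asIdeal) → σ = 1 := fun w hw =>
    hun w (hn2 _ (dn F w).isPrime.ne_top hw)
  have hunM : ∀ w : HeightOneSpectrum (𝓞 K), 2 * β ∈ (dn F w).asIdeal →
      ∀ σ : Gal(K/F), (∀ x : 𝓞 K, σ • x - x ∈ w.asIdeal) → σ = 1 := by
    intro w hw
    rcases (dn F w).isPrime.mem_or_mem hw with h | h
    · exact hun2 w h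
    · refine hun w fun hn => (dn F w).isPrime.ne_top ?_
      rw [Ideal.eq_top_iff_one]
      exact one_mem_of hβ hn h
  obtain ⟨d, θ, hd0, hdM, hθ, hact⟩ := exists_d X hX (mul_ne_zero two_ne_zero hβ0)
    (Dvd.intro _ rfl) hunM
  have hd2 : IsCoprime d 2 := hdM.of_mul_right_left
  have hdβ : IsCoprime d β := hdM.of_mul_right_right
  obtain ⟨s, hs⟩ := sq_mod_four h2v hun2 hθ
  obtain ⟨δ, hδ, hne, hpos, hodd⟩ := recip_W ha hF hd0 hβ0 hd2 hdβ ⟨s, hs⟩
  rw [jac_d_one hun hd0 hθ hdβ hβ, one_mul] at hpos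
  suffices hXX : HH δ d β = XX X (Ideal.span {β}) * HH δ 1 β by
    rw [hXX, mul_div_cancel_right₀ _ hne] at hpos
    exact pos_pm hpos (XX_sq X hX _)
  have hdβI := span_cop hdβ
  rcases hcase with h2 | ⟨P, C, hP, hP0, h2P, h2C, hPC⟩
  · rw [XX_odd X hX hθ hact (span_cop h2.symm) hdβI]
    exact hodd h2
  · obtain ⟨a', ha'⟩ := hs
    have hd : d = s ^ 2 + 4 * a' := by linear_combination ha'
    have hs2 : IsCoprime s 2 := by
      obtain ⟨p, q, hpq⟩ := hd2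
      exact ⟨p * s, 2 * p * a' + q, by linear_combination hpq - p * hd⟩
    have hs4 : IsCoprime s (2 * 2) := hs2.mul_right hs2
    obtain ⟨s', k, hk⟩ := hs4
    have h4 : (2 * 2 : 𝓞 F) ∈ Ideal.span {(2 : 𝓞 F)} * P :=
      Ideal.mul_mem_mul (Ideal.mem_span_singleton_self _) h2P
    have hs' : s' * s - 1 ∈ Ideal.span {(2 : 𝓞 F)} * P := by
      have : s' * s - 1 = -k * (2 * 2) := by linear_combination hk
      rw [this]
      exact Ideal.mul_mem_left _ _ h4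
    have hC0 : C ≠ 0 := by
      rintro rfl
      rw [mul_zero, Ideal.zero_eq_bot, Ideal.span_singleton_eq_bot] at hPC
      exact hβ0 hPC
    have hPp : Prime P := Ideal.prime_of_isPrime hP0 hP
    let v : HeightOneSpectrum (𝓞 F) := ⟨P, hP, hP0⟩
    obtain ⟨f, hf⟩ := norm_two (v := v) h2P
    have hf' : Nat.card (𝓞 F ⧸ P) = 2 ^ f := by
      rw [← hf, Ideal.absNorm_apply, Submodule.cardQuot_apply]
    have hdC : IsCoprime (Ideal.span {d}) C := by
      rw [hPC] at hdβI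
      exact hdβI.of_mul_right_right
    obtain ⟨g1, g2⟩ := dyadic_G' hδ hP hP0 h2P hC0 h2C ⟨d, by ring⟩ hPC hd hs' hdC hf'
    obtain ⟨w, hw1, hw2⟩ := frP_spec (K := K) v
    obtain ⟨t1, t2⟩ := frob_two X hX hθ hact (v := v) h2P hd (Ideal.mul_le_right hs') hf hw1 hw2
    rw [hPC, XX_mul X hP0 hC0, XX_prime X hPp, XX_odd X hX hθ hact h2C hdC]
    by_cases hsum : ∑ i ∈ Finset.range f, (a' * s' ^ 2) ^ 2 ^ i ∈ P
    · have h1 : X (frP K P) = 1 := by
        rcases unit_sq_pm (hX (frP K P)) with h | h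
        · exact h
        · exact absurd hsum (t2 h)
      rw [g1 hsum, h1]
      simp
    · have h1 : X (frP K P) = -1 := by
        rcases unit_sq_pm (hX (frP K P)) with h | h
        · exact absurd (t1 h) hsum
        · exact h
      rw [(g2 hsum).1, h1]
      simp

theorem XX_all' {a : F} (ha : a ^ 2 = -3) {r : ℕ} (hF : Module.finrank ℚ F = 2 * r)
    (h2v : ∀ v : HeightOneSpectrum (𝓞 F), (2 : 𝓞 F) ∈ v.asIdeal →
      v.valuation F 2 = exp (-1 : ℤ)) (X : Gal(K/F) →* ℂˣ) (hX : ∀ σ, X σ ^ 2 = 1) {n : ℕ}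
    (hno : Odd n)
    (hun : ∀ w : HeightOneSpectrum (𝓞 K), (n : 𝓞 F) ∉ (dn F w).asIdeal →
      ∀ σ : Gal(K/F), (∀ x : 𝓞 K, σ • x - x ∈ w.asIdeal) → σ = 1)
    (m : ℕ) : ∀ α : 𝓞 F, α ≠ 0 → (n : 𝓞 F) ∣ α - 1 → ndy (Ideal.span {α}) = m →
    XX X (Ideal.span {α}) = 1 := by
  classical
  have hsp : ∀ {x : 𝓞 F}, x ≠ 0 → Ideal.span {x} ≠ 0 := by
    intro x hx
    rw [Ideal.zero_eq_bot, Ne, Ideal.span_singleton_eq_bot]
    exact hx
  induction m with
  | zero =>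
    intro α hα0 hα h0
    rw [ndy_zero_iff (hsp hα0)] at h0
    refine XX_dyadic' ha hF h2v X hX hno hun hα0 hα (Or.inl ?_)
    rw [← Ideal.isCoprime_span_singleton_iff]
    exact h0.symm
  | succ m ih =>
    intro α hα0 hα hm
    obtain ⟨P, hP⟩ : ∃ P, P ∈ (normalizedFactors (Ideal.span {α})).filter (fun P => (2 : 𝓞 F) ∈ P) := by
      apply Multiset.card_pos_iff_exists_mem.1
      change 0 < ndy (Ideal.span {α})
      omega
    rw [Multiset.mem_filter] at hP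
    obtain ⟨hP1, h2P⟩ := hP
    have hPp : Prime P := UniqueFactorizationMonoid.prime_of_normalized_factor P hP1
    have hPα : α ∈ P := Ideal.dvd_span_singleton.1 (UniqueFactorizationMonoid.dvd_of_mem_normalizedFactors hP1)
    have hP0 : P ≠ ⊥ := hPp.ne_zero
    have hPprime : P.IsPrime := Ideal.isPrime_of_prime hPp
    obtain ⟨β, C, hβ0, hβ, h2C, hPC⟩ := exists_beta hno hPprime hP0 h2P
    have hC0 : C ≠ 0 := by
      rintro rfl
      rw [mul_zero] at hPC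
      exact hsp hβ0 hPC
    -- the auxiliary element
    have hCn : IsCoprime C (Ideal.span {2 * (n : 𝓞 F)}) := by
      rw [← Ideal.span_singleton_mul_span_singleton]
      refine IsCoprime.mul_right h2C.symm ?_
      have h1 : IsCoprime (Ideal.span {β}) (Ideal.span {(n : 𝓞 F)}) := by
        rw [Ideal.isCoprime_span_singleton_iff]
        obtain ⟨c, hc⟩ := hβ
        exact ⟨1, -c, by linear_combination hc⟩
      rw [hPC] at h1
      exact h1.of_mul_left_right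
    obtain ⟨γ, hγ, k, hk, hγk⟩ := (Ideal.isCoprime_iff_exists).1 hCn
    rw [Ideal.mem_span_singleton] at hk
    obtain ⟨k', rfl⟩ := hk
    have hγn : (n : 𝓞 F) ∣ γ - 1 := ⟨-(2 * k'), by linear_combination hγk⟩
    have hγ2 : IsCoprime γ 2 := ⟨1, (n : 𝓞 F) * k', by linear_combination hγk⟩
    have hγ0 : γ ≠ 0 := by
      rintro rfl
      obtain ⟨u, v, huv⟩ := hγ2
      apply hPprime.ne_top
      rw [Ideal.eq_top_iff_one, ← huv, mul_zero, zero_add]
      exact P.mul_mem_left _ h2P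
    have h1 : γ * α ∈ P * C := by
      rw [mul_comm γ α]
      exact Ideal.mul_mem_mul hPα hγ
    rw [← hPC, Ideal.mem_span_singleton] at h1
    obtain ⟨α', hα'⟩ := h1
    have hα'0 : α' ≠ 0 := by
      rintro rfl
      rw [mul_zero] at hα'
      exact mul_ne_zero hγ0 hα0 hα'
    have hα'n : (n : 𝓞 F) ∣ α' - 1 := by
      obtain ⟨c1, e1⟩ := hγn
      obtain ⟨c2, e2⟩ := hα
      obtain ⟨c3, e3⟩ := hβ
      exact ⟨c1 * α + c2 - c3 * α', by linear_combination -hα' + α * e1 + e2 - α' * e3⟩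
    have hspan : Ideal.span {γ} * Ideal.span {α} = Ideal.span {β} * Ideal.span {α'} := by
      rw [Ideal.span_singleton_mul_span_singleton, Ideal.span_singleton_mul_span_singleton, hα']
    have hγz : ndy (Ideal.span {γ}) = 0 := by
      rw [ndy_zero_iff (hsp hγ0)]
      exact span_cop hγ2.symm
    have hβz : ndy (Ideal.span {β}) = 1 := by
      rw [hPC, ndy_mul hP0 hC0, ndy_prime hPp h2P, (ndy_zero_iff hC0).2 h2C]
    have hn' : ndy (Ideal.span {α'}) = m := by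
      have h2 := congrArg ndy hspan
      rw [ndy_mul (hsp hγ0) (hsp hα0), ndy_mul (hsp hβ0) (hsp hα'0), hγz, hβz, hm] at h2
      omega
    have h3 := congrArg (XX X) hspan
    rw [XX_mul X (hsp hγ0) (hsp hα0), XX_mul X (hsp hβ0) (hsp hα'0), ih α' hα'0 hα'n hn',
      XX_dyadic' ha hF h2v X hX hno hun hγ0 hγn (Or.inl hγ2),
      XX_dyadic' ha hF h2v X hX hno hun hβ0 hβ (Or.inr ⟨P, C, hPprime, hP0, h2P, h2C, hPC⟩)] at h3
    rwa [one_mul, one_mul] at h3

/-- **Artin reciprocity for extensions of exponent two, no condition on the different.** -/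
theorem isArt_sq' {a : F} (ha : a ^ 2 = -3) {r : ℕ} (hF : Module.finrank ℚ F = 2 * r)
    (h2v : ∀ v : HeightOneSpectrum (𝓞 F), (2 : 𝓞 F) ∈ v.asIdeal →
      v.valuation F 2 = exp (-1 : ℤ)) (hcomm : ∀ σ τ : Gal(K/F), σ * τ = τ * σ)
    (hsq : ∀ σ : Gal(K/F), σ * σ = 1) {n : ℕ} (hno : Odd n)
    (hun : ∀ w : HeightOneSpectrum (𝓞 K), (n : 𝓞 K) ∉ w.asIdeal →
      ∀ σ : Gal(K/F), (∀ x : 𝓞 K, σ • x - x ∈ w.asIdeal) → σ = 1) :
    IsArt n (PhiM hcomm) := by
  have hun' : ∀ w : HeightOneSpectrum (𝓞 K), (n : 𝓞 F) ∉ (dn F w).asIdeal →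
      ∀ σ : Gal(K/F), (∀ x : 𝓞 K, σ • x - x ∈ w.asIdeal) → σ = 1 := by
    intro w hw
    refine hun w fun h => hw ?_
    rw [dn_mem, map_natCast]
    exact h
  refine ⟨fun I J hI hJ _ _ => PhiM_mul hcomm hI hJ, fun α hα0 hα => ?_, hun, fun w _ x => ?_⟩
  · by_contra hne
    obtain ⟨X, hX⟩ := exists_char' hcomm hne
    apply hX
    have hX2 : ∀ σ, X σ ^ 2 = 1 := fun σ => by rw [← map_pow, pow_two, hsq, map_one]
    have h1 := XX_phi hcomm X (Ideal.span {α})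
    rw [XX_all' ha hF h2v X hX2 hno hun' _ α hα0 hα rfl] at h1
    exact Units.ext (by rw [h1, Units.val_one])
  · have hPp : Prime (w.asIdeal.under (𝓞 F)) := Ideal.prime_of_isPrime (dn F w).ne_bot (dn F w).isPrime
    rw [PhiM_prime hcomm hPp]
    obtain ⟨w0, hw0, hfr⟩ := frP_spec (K := K) (dn F w)
    have h1 := frob_all hcomm (w0 := w0) (w := w) (congrArg HeightOneSpectrum.asIdeal hw0) hfr x
    rw [Ideal.absNorm_apply, Submodule.cardQuot_apply] at h1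
    exact h1

end

/-- the statement `Recip` of the interface -/
theorem recip : ∀ (F K : Type) [Field F] [NumberField F] [Field K] [NumberField K] [Algebra F K]
    [IsGalois F K] (a : F), a ^ 2 = -3 → ∀ (r : ℕ), Module.finrank ℚ F = 2 * r →
    (∀ v : HeightOneSpectrum (𝓞 F), (2 : 𝓞 F) ∈ v.asIdeal →
      v.valuation F 2 = WithZero.exp (-1 : ℤ)) →
    ∀ (hcomm : ∀ σ τ : Gal(K/F), σ * τ = τ * σ), (∀ σ : Gal(K/F), σ * σ = 1) →
    ∀ (n : ℕ), Odd n →
    (∀ w : HeightOneSpectrum (𝓞 K), (n : 𝓞 K) ∉ w.asIdeal →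
      ∀ σ : Gal(K/F), (∀ x : 𝓞 K, σ • x - x ∈ w.asIdeal) → σ = 1) →
    IsArt n (PhiM hcomm) :=
  fun _ _ _ _ _ _ _ _ _ ha _ hF h2v hcomm hsq _ hno hun => isArt_sq' ha hF h2v hcomm hsq hno hun

end Pool.Agent.K7.H70.RC
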