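import Pool.Agent.R430.Q6

/-!
# Quadratic Gauss sums of additive characters with a given kernel ideal
-/

set_option autoImplicit false
set_option linter.unusedSectionVars false

open NumberField

namespace Pool.Agent.K7.H70.RC

open Pool.Agent.R430
open Pool.Agent.Y688.QRec

variable {F : Type} [Field F] [NumberField F]

/-- `ψ` is an additive character of the integers whose largest ideal in the kernel is `I` -/
structure Kr (I : Ideal (𝓞 F)) (ψ : 𝓞 F → ℂ) : Prop where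
  add : ∀ x y, ψ (x + y) = ψ x * ψ y
  ker : ∀ z, z ∈ I ↔ ∀ w, ψ (z * w) = 1

/-- the quadratic Gauss sum -/
noncomputable def GQ (I : Ideal (𝓞 F)) (ψ : 𝓞 F → ℂ) : ℂ := PS I (fun y => ψ (y ^ 2))

section
variable {I J : Ideal (𝓞 F)} {ψ : 𝓞 F → ℂ}

lemma Kr.one_of (h : Kr I ψ) {z : 𝓞 F} (hz : z ∈ I) : ψ z = 1 := by
  have := (h.ker z).1 hz 1
  rwa [mul_one] at this

lemma Kr.zero (h : Kr I ψ) : ψ 0 = 1 := h.one_of I.zero_mem

lemma Kr.per (h : Kr I ψ) : Per I ψ := by
  intro x y hxy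
  obtain ⟨k, hk, rfl⟩ := of_sub_mem hxy
  rw [h.add, h.one_of hk, mul_one]

lemma Kr.perq (h : Kr I ψ) : Per I (fun y => ψ (y ^ 2)) := by
  intro x y hxy
  refine h.per _ _ ?_
  have : x ^ 2 - y ^ 2 = (x + y) * (x - y) := by ring
  rw [this]
  exact I.mul_mem_left _ hxy

lemma Kr.mul (h : Kr I ψ) {β : 𝓞 F} (hβ : IsCoprime (Ideal.span {β}) I) :
    Kr I (fun x => ψ (β * x)) := by
  refine ⟨fun x y => ?_, fun z => ⟨fun hz w => ?_, fun hw => ?_⟩⟩
  · show ψ _ = ψ _ * ψ _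
    rw [mul_add, h.add]
  · exact h.one_of (I.mul_mem_left _ (I.mul_mem_right _ hz))
  · have h1 : β * z ∈ I := (h.ker _).2 fun w => by
      rw [mul_assoc]
      exact hw w
    rw [Ideal.isCoprime_iff_exists] at hβ
    obtain ⟨u, hu, v, hv, huv⟩ := hβ
    rw [Ideal.mem_span_singleton] at hu
    obtain ⟨w, rfl⟩ := hu
    have : z = w * (β * z) + v * z := by linear_combination -z * huv
    rw [this]
    exact I.add_mem (I.mul_mem_left _ h1) (I.mul_mem_right _ hv)

lemma Kr.part {b c : 𝓞 F} (hb : b ∈ I) (hc : c ∈ J) (hbc : b + c = 1) (h : Kr (I * J) ψ) :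
    Kr J (fun x => ψ (b ^ 2 * x)) := by
  refine ⟨fun x y => ?_, fun z => ⟨fun hz w => ?_, fun hw => ?_⟩⟩
  · show ψ _ = ψ _ * ψ _
    rw [mul_add, h.add]
  · refine h.one_of ?_
    have : b ^ 2 * (z * w) = (b * z) * (b * w) := by ring
    rw [this]
    exact (I * J).mul_mem_right _ (Ideal.mul_mem_mul hb hz)
  · have h1 : b ^ 2 * z ∈ I * J := (h.ker _).2 fun w => by
      rw [mul_assoc]
      exact hw w
    have h2 : b ^ 2 * z ∈ J := Ideal.mul_le_right h1
    have h3 : z = b ^ 2 * z + c * (z * (1 + b)) := by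
      have hc' : c = 1 - b := by linear_combination hbc
      rw [hc']
      ring
    rw [h3]
    exact J.add_mem h2 (J.mul_mem_right _ hc)

lemma GQ_mul {b c : 𝓞 F} (hb : b ∈ I) (hc : c ∈ J) (hbc : b + c = 1) [Finite (𝓞 F ⧸ I)]
    [Finite (𝓞 F ⧸ J)] (h : Kr (I * J) ψ) :
    GQ (I * J) ψ = GQ J (fun x => ψ (b ^ 2 * x)) * GQ I (fun x => ψ (c ^ 2 * x)) := by
  unfold GQ
  rw [PS_crtI hb hc hbc h.perq]
  rw [mul_comm (PS J _), ← PS_const_mul]
  refine PS_congr fun y => ?_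
  rw [mul_comm _ (ψ _), ← PS_const_mul]
  refine PS_congr fun z => ?_
  have e : (b * y + c * z) ^ 2 = b ^ 2 * y ^ 2 + c ^ 2 * z ^ 2 + (b * c) * (2 * y * z) := by ring
  rw [e, h.add, h.add, h.one_of ((I * J).mul_mem_right _ (Ideal.mul_mem_mul hb hc)), mul_one]

lemma GQ_prime {P : Ideal (𝓞 F)} (hP : P.IsPrime) (hP0 : P ≠ ⊥) (h2 : (2 : 𝓞 F) ∉ P)
    (h : Kr P ψ) {β : 𝓞 F} (hβ : β ∉ P) : GQ P (fun x => ψ (β * x)) = qc P β * GQ P ψ := by
  classical
  have hmax : P.IsMaximal := hP.isMaximal hP0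
  have hfin : Finite (𝓞 F ⧸ P) := Ideal.finiteQuotientOfFreeOfNeBot P hP0
  let _ : Field (𝓞 F ⧸ P) := Ideal.Quotient.field _
  let _ : Fintype (𝓞 F ⧸ P) := Fintype.ofFinite _
  set f := Ideal.Quotient.mk P with hfdef
  have hf : Function.Surjective f := Ideal.Quotient.mk_surjective
  have hker : RingHom.ker f = P := Ideal.mk_ker
  have hmk : ∀ α : 𝓞 F, f α = 0 ↔ α ∈ P := fun α => Ideal.Quotient.eq_zero_iff_mem
  have hchar : ringChar (𝓞 F ⧸ P) ≠ 2 := by
    intro h0
    apply h2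
    rw [← hmk, map_ofNat]
    have h1 : ((2 : ℕ) : 𝓞 F ⧸ P) = 0 := by
      rw [← h0]
      exact ringChar.Nat.cast_ringChar
    exact_mod_cast h1
  let inv : 𝓞 F ⧸ P → 𝓞 F := Function.surjInv hf
  have hinv : ∀ x, f (inv x) = x := Function.surjInv_eq hf
  let Ψ : 𝓞 F ⧸ P → ℂ := fun x => ψ (inv x)
  have hΨ : ∀ x : 𝓞 F, Ψ (f x) = ψ x := by
    intro x
    refine h.per _ _ ?_
    rw [← hmk, map_sub, hinv, sub_self]
  have hadd : ∀ x y, Ψ (x + y) = Ψ x * Ψ y := by
    intro x y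
    obtain ⟨x, rfl⟩ := hf x
    obtain ⟨y, rfl⟩ := hf y
    rw [← map_add, hΨ, hΨ, hΨ, h.add]
  have hne : ∃ x, Ψ x ≠ 1 := by
    by_contra hcon
    push Not at hcon
    apply hP.ne_top
    rw [Ideal.eq_top_iff_one, h.ker]
    intro w
    rw [one_mul, ← hΨ]
    exact hcon _
  have hgg : ∀ u : 𝓞 F, u ∉ P → GQ P (fun x => ψ (u * x)) =
      ((quadraticChar (𝓞 F ⧸ P) (f u) : ℤ) : ℂ) *
        ∑ x : 𝓞 F ⧸ P, ((quadraticChar (𝓞 F ⧸ P) x : ℤ) : ℂ) * Ψ x := by
    intro u hu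
    have h1 := field_gauss hchar Ψ hadd hne (u := f u) (fun h => hu ((hmk u).1 h))
    rw [← h1]
    unfold GQ
    refine PS_field f hf hker (fun y : 𝓞 F ⧸ P => Ψ (f u * y ^ 2)) fun x => ?_
    rw [← map_pow, ← map_mul, hΨ]
  have h1 := hgg β hβ
  have h1P : (1 : 𝓞 F) ∉ P := fun h0 => hP.ne_top ((Ideal.eq_top_iff_one P).2 h0)
  have h3 := hgg 1 h1P
  rw [map_one, map_one] at h3
  have h4 : GQ P (fun x => ψ (1 * x)) = GQ P ψ := by simp only [one_mul]
  rw [h4] at h3
  rw [h1, qc_eq f hf hker, h3]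
  push_cast
  ring

end

theorem sq_rem' {P : Ideal (𝓞 F)} (hP : P.IsPrime) (hP0 : P ≠ ⊥)
    (h2 : (2 : 𝓞 F) ∉ P) (m : ℕ) : ∃ (γ : 𝓞 F) (C : ℂ), ∀ ψ : 𝓞 F → ℂ, Kr (P ^ (m + 2)) ψ →
      Kr (P ^ m) (fun x => ψ (γ ^ 2 * x)) ∧
        GQ (P ^ (m + 2)) ψ = C * GQ (P ^ m) (fun x => ψ (γ ^ 2 * x)) := by
  classical
  have hmax : P.IsMaximal := hP.isMaximal hP0
  have hpow : ∀ k, P ^ k ≠ ⊥ := fun k => pow_ne_zero k hP0
  have hfin : ∀ k, Finite (𝓞 F ⧸ P ^ k) := fun k => Ideal.finiteQuotientOfFreeOfNeBot _ (hpow k)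
  have hfP : Finite (𝓞 F ⧸ P) := Ideal.finiteQuotientOfFreeOfNeBot _ hP0
  obtain ⟨γ, hγ1, hγ2⟩ := Ideal.exists_mem_pow_notMem_pow_succ P hP0 hP.ne_top 1
  rw [pow_one] at hγ1
  obtain ⟨j, hj1, hj2⟩ := Ideal.exists_mem_pow_notMem_pow_succ P hP0 hP.ne_top (m + 1)
  set I := P ^ (m + 2) with hI
  set J := P ^ (m + 1) with hJ
  have hJP : J ≤ P := by
    rw [hJ, pow_succ']
    exact Ideal.mul_le_left
  have hIJ : I ≤ J := by
    rw [hI, hJ, pow_succ']
    exact Ideal.mul_le_right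
  have hPJ : ∀ x ∈ P, ∀ k ∈ J, x * k ∈ I := by
    intro x hx k hk
    rw [hI, pow_succ']
    exact Ideal.mul_mem_mul hx hk
  -- the constant
  let φ : 𝓞 F →+ 𝓞 F ⧸ J := (Ideal.Quotient.mk J).toAddMonoidHom.comp (AddMonoidHom.mulLeft γ)
  have hφ : ∀ x, φ x = Ideal.Quotient.mk J (γ * x) := fun x => rfl
  have hkill : ∀ x ∈ P ^ m, φ x = 0 := by
    intro x hx
    rw [hφ, Ideal.Quotient.eq_zero_iff_mem, hJ, pow_mem_iff hP hP0 hγ1 hγ2]
    exact hx
  obtain ⟨n, hn, hmono⟩ : ∃ n : ℕ, 0 < n ∧ ∀ g : 𝓞 F → ℂ, Per J g → PS I g = n * PS J g := by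
    obtain ⟨n, hn, h1⟩ := PS_mono (I := I) (J := J) hIJ (g := fun _ => 1) (fun _ _ _ => rfl)
    refine ⟨n, hn, fun g hg => ?_⟩
    obtain ⟨n', hn', h3⟩ := PS_mono (I := I) (J := J) hIJ hg
    -- both constants are the ratio of the cardinalities
    have key : ∀ (g : 𝓞 F → ℂ), Per J g → PS I g =
        (Nat.card ((Ideal.Quotient.factor hIJ).toAddMonoidHom : 𝓞 F ⧸ I →+ 𝓞 F ⧸ J).ker : ℂ) * PS J g := by
      intro g hg
      let φ : (𝓞 F ⧸ I) →+ (𝓞 F ⧸ J) := (Ideal.Quotient.factor hIJ).toAddMonoidHom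
      have hφ : Function.Surjective φ := Ideal.Quotient.factor_surjective hIJ
      have h1 := sum_hom φ (fun y : 𝓞 F ⧸ J => g y.out)
      have h2 : PS I g = ∑ᶠ x : 𝓞 F ⧸ I, g (φ x).out := by
        refine PS_eq (fun x => g (φ x).out) fun x => ?_
        show g (φ (Ideal.Quotient.mk I x)).out = g x
        exact hg.out x
      rw [h2, h1]
      congr 1
      have hr : φ.range = ⊤ := AddMonoidHom.range_eq_top.2 hφ
      unfold PS
      exact finsum_comp_equiv (f := fun y : 𝓞 F ⧸ J => g y.out)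
        ((AddEquiv.addSubgroupCongr hr).trans AddSubgroup.topEquiv).toEquiv
    have e1 := key (fun _ => 1) (fun _ _ _ => rfl)
    rw [h1] at e1
    have hne : PS J (fun _ : 𝓞 F => (1 : ℂ)) ≠ 0 := by
      rw [PS_one_of (fun _ => rfl)]
      exact_mod_cast Nat.card_pos.ne'
    have e2 := mul_right_cancel₀ hne e1
    rw [key g hg, e2]
  refine ⟨γ, n / (Nat.card (liftI (P ^ m) φ hkill).ker : ℂ), fun ψ h => ?_⟩
  have hKr : Kr (P ^ m) (fun x => ψ (γ ^ 2 * x)) := by
    refine ⟨fun x y => ?_, fun z => ?_⟩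
    · show ψ _ = ψ _ * ψ _
      rw [mul_add, h.add]
    · have e1 : z ∈ P ^ m ↔ γ * (γ * z) ∈ I := by
        rw [hI, pow_mem_iff hP hP0 hγ1 hγ2, pow_mem_iff hP hP0 hγ1 hγ2]
      rw [e1, h.ker]
      have e2 : ∀ w, γ * (γ * z) * w = γ ^ 2 * (z * w) := fun w => by ring
      simp only [e2]
  refine ⟨hKr, ?_⟩
  set g : 𝓞 F → ℂ := fun y => ψ (y ^ 2) with hg
  have hgper : Per I g := h.perq
  let h0 : 𝓞 F → ℂ := fun y => if y ∈ P then 0 else g y
  let g1 : 𝓞 F → ℂ := fun y => if y ∈ P then g y else 0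
  have hmemP : ∀ x y : 𝓞 F, x - y ∈ P → (x ∈ P ↔ y ∈ P) := by
    intro x y hxy
    constructor
    · intro hx
      have : y = x - (x - y) := by ring
      rw [this]
      exact P.sub_mem hx hxy
    · intro hy
      have : x = (x - y) + y := by ring
      rw [this]
      exact P.add_mem hxy hy
  have hh0per : Per I h0 := by
    intro x y hxy
    show (if x ∈ P then 0 else g x) = if y ∈ P then 0 else g y
    rw [hgper x y hxy]
    simp only [hmemP x y (hJP (hIJ hxy))]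
  have hg1per : Per J g1 := by
    intro x y hxy
    show (if x ∈ P then g x else 0) = if y ∈ P then g y else 0
    by_cases hy : y ∈ P
    · rw [if_pos ((hmemP x y (hJP hxy)).2 hy), if_pos hy]
      refine h.per _ _ ?_
      have : x ^ 2 - y ^ 2 = (x + y) * (x - y) := by ring
      rw [this]
      exact hPJ _ (P.add_mem ((hmemP x y (hJP hxy)).2 hy) hy) _ hxy
    · rw [if_neg (fun hx => hy ((hmemP x y (hJP hxy)).1 hx)), if_neg hy]
  -- the part outside of `P` vanishes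
  have hzero : PS I h0 = 0 := by
    have h3 : ∀ w : 𝓞 F, PS I (fun y => h0 y * ψ (2 * y * j * w)) = PS I h0 := by
      intro w
      rw [← PS_shift hh0per (j * w)]
      refine PS_congr fun y => ?_
      show (if y ∈ P then 0 else g y) * _ = if y + j * w ∈ P then 0 else g (y + j * w)
      have hjw : j * w ∈ J := J.mul_mem_right _ hj1
      by_cases hy : y ∈ P
      · rw [if_pos hy, if_pos (P.add_mem hy (hJP hjw)), zero_mul]
      · rw [if_neg hy, if_neg (fun hc => hy ((hmemP (y + j * w) y (by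
          have : y + j * w - y = j * w := by ring
          rw [this]
          exact hJP hjw)).1 hc))]
        show ψ _ * ψ _ = ψ _
        have e : (y + j * w) ^ 2 = y ^ 2 + 2 * y * j * w + (j * w) * (j * w) := by ring
        rw [e, h.add, h.add, h.one_of (hPJ _ (hJP hjw) _ hjw), mul_one]
    have h4 : PS P (fun w : 𝓞 F => PS I (fun y => h0 y * ψ (2 * y * j * w))) =
        (Nat.card (𝓞 F ⧸ P) : ℂ) * PS I h0 := by
      rw [PS_congr (h := fun _ => PS I h0 * 1) (fun w => by rw [h3, mul_one]), PS_const_mul,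
        PS_one_of (fun _ => rfl), mul_comm]
    rw [PS_swap] at h4
    have h5 : PS I (fun y => PS P (fun w : 𝓞 F => h0 y * ψ (2 * y * j * w))) = 0 := by
      refine PS_zero' fun y => ?_
      rw [PS_const_mul]
      by_cases hy : y ∈ P
      · show (if y ∈ P then 0 else g y) * _ = 0
        rw [if_pos hy, zero_mul]
      · have hadd : ∀ w w' : 𝓞 F, ψ (2 * y * j * (w + w')) =
            ψ (2 * y * j * w) * ψ (2 * y * j * w') := by
          intro w w'
          rw [mul_add, h.add]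
        have hper : Per P (fun w : 𝓞 F => ψ (2 * y * j * w)) := by
          intro w w' hw
          refine h.per _ _ ?_
          have : 2 * y * j * w - 2 * y * j * w' = (w - w') * (2 * y * j) := by ring
          rw [this]
          exact hPJ _ hw _ (J.mul_mem_left _ hj1)
        have hex : ∃ w : 𝓞 F, ψ (2 * y * j * w) ≠ 1 := by
          by_contra hcon
          push Not at hcon
          have h6 : 2 * y * j ∈ I := (h.ker _).2 hcon
          rcases Ideal.IsPrime.mul_mem_pow P h6 with h7 | h7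
          · rcases hP.mem_or_mem h7 with h8 | h8
            · exact h2 h8
            · exact hy h8
          · exact hj2 h7
        obtain ⟨w, hw⟩ := hex
        rw [PS_char hper hadd hw, mul_zero]
    rw [h5] at h4
    have hne : (Nat.card (𝓞 F ⧸ P) : ℂ) ≠ 0 := by exact_mod_cast Nat.card_pos.ne'
    exact (mul_eq_zero.1 h4.symm).resolve_left hne
  have hI1 : GQ I ψ = PS I g1 := by
    have e : ∀ y, g y = g1 y + h0 y := by
      intro y
      show g y = (if y ∈ P then g y else 0) + (if y ∈ P then 0 else g y)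
      by_cases hy : y ∈ P
      · rw [if_pos hy, if_pos hy, add_zero]
      · rw [if_neg hy, if_neg hy, zero_add]
    show PS I g = _
    rw [PS_congr e, PS_add, hzero, add_zero]
  rw [hI1, hmono g1 hg1per]
  -- the part inside of `P`
  have h6 : GQ (P ^ m) (fun x => ψ (γ ^ 2 * x)) =
      (Nat.card (liftI (P ^ m) φ hkill).ker : ℂ) * PS J g1 := by
    have h7 := sum_hom (liftI (P ^ m) φ hkill) (fun y : 𝓞 F ⧸ J => g1 y.out)
    have h8 : GQ (P ^ m) (fun x => ψ (γ ^ 2 * x)) =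
        ∑ᶠ x : 𝓞 F ⧸ P ^ m, g1 (liftI (P ^ m) φ hkill x).out := by
      refine PS_eq (fun x => g1 (liftI (P ^ m) φ hkill x).out) fun x => ?_
      show g1 (liftI (P ^ m) φ hkill (Ideal.Quotient.mk _ x)).out = _
      rw [liftI_mk, hφ, hg1per.out]
      show (if γ * x ∈ P then g (γ * x) else 0) = _
      rw [if_pos (P.mul_mem_right _ hγ1)]
      show ψ _ = ψ _
      congr 1
      ring
    rw [h8, h7]
    congr 1
    let _ : Fintype (𝓞 F ⧸ J) := Fintype.ofFinite _
    let _ : Fintype (liftI (P ^ m) φ hkill).range := Fintype.ofFinite _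
    unfold PS
    rw [finsum_eq_sum_of_fintype, finsum_eq_sum_of_fintype]
    have h9 : ∀ y : 𝓞 F ⧸ J, g1 y.out =
        if y ∈ (liftI (P ^ m) φ hkill).range then g1 y.out else 0 := by
      intro y
      by_cases hy : y ∈ (liftI (P ^ m) φ hkill).range
      · rw [if_pos hy]
      · rw [if_neg hy]
        show (if y.out ∈ P then g y.out else 0) = 0
        rw [if_neg]
        intro hyP
        apply hy
        have h10 : y.out ∈ Ideal.span {γ} ⊔ P ^ (m + 1) := by
          rw [sup_eq_of hP hP0 hγ1 hγ2]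
          exact hyP
        rw [Ideal.mem_span_singleton_sup] at h10
        obtain ⟨a, k, hk, hak⟩ := h10
        refine ⟨Ideal.Quotient.mk _ a, ?_⟩
        rw [liftI_mk, hφ]
        have h11 : y = Ideal.Quotient.mk J y.out := (Quotient.out_eq y).symm
        rw [h11, Ideal.Quotient.eq, ← hak]
        have : γ * a - (a * γ + k) = -k := by ring
        rw [this]
        exact J.neg_mem hk
    have h12 : ∑ y : 𝓞 F ⧸ J, g1 y.out =
        ∑ y : 𝓞 F ⧸ J, if y ∈ (liftI (P ^ m) φ hkill).range then g1 y.out else 0 :=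
      Finset.sum_congr rfl fun y _ => h9 y
    have h13 := Finset.sum_filter (s := (Finset.univ : Finset (𝓞 F ⧸ J)))
      (fun y => y ∈ (liftI (P ^ m) φ hkill).range) (fun y => g1 y.out)
    rw [h12, ← h13]
    refine (Finset.sum_subtype _ (fun y => ?_) (fun y : 𝓞 F ⧸ J => g1 y.out)).symm
    rw [Finset.mem_filter]
    simp
  rw [h6]
  have hne : (Nat.card (liftI (P ^ m) φ hkill).ker : ℂ) ≠ 0 := by exact_mod_cast Nat.card_pos.ne'
  field_simp

theorem GQ_jac {I : Ideal (𝓞 F)} (hI : I ≠ 0)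
    (h2 : IsCoprime (Ideal.span {(2 : 𝓞 F)}) I) {ψ : 𝓞 F → ℂ} (h : Kr I ψ) {β : 𝓞 F}
    (hβ : IsCoprime (Ideal.span {β}) I) : GQ I (fun x => ψ (β * x)) = jac I β * GQ I ψ := by
  revert ψ β
  have h1case : ∀ {ψ : 𝓞 F → ℂ}, Kr (1 : Ideal (𝓞 F)) ψ → ∀ β : 𝓞 F,
      GQ (1 : Ideal (𝓞 F)) (fun x => ψ (β * x)) = jac (1 : Ideal (𝓞 F)) β * GQ (1 : Ideal (𝓞 F)) ψ := by
    intro ψ h β
    rw [jac_one, one_mul]
    have h3 : ∀ z : 𝓞 F, ψ z = 1 := fun z => h.one_of (by rw [Ideal.one_eq_top]; trivial)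
    unfold GQ
    rw [PS_congr (h := fun _ => 1) (fun y => h3 _), PS_congr (h := fun _ => 1) (fun y => h3 _)]
  induction I using UniqueFactorizationMonoid.induction_on_coprime with
  | h0 =>
    intro ψ _ β _
    exact absurd rfl hI
  | @h1 I hu =>
    intro ψ hC β hβ
    rw [Ideal.isUnit_iff, ← Ideal.one_eq_top] at hu
    subst hu
    exact h1case hC β
  | @hpr P i hp =>
    have hP0 : P ≠ ⊥ := hp.ne_zero
    have hP : P.IsPrime := Ideal.isPrime_of_prime hp
    have hmax : P.IsMaximal := hP.isMaximal hP0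
    clear hI
    induction i using Nat.strong_induction_on with
    | _ i ih =>
      intro ψ hC β hβ
      rcases Nat.lt_or_ge i 2 with hi | hi
      · interval_cases i
        · rw [pow_zero] at hC ⊢
          exact h1case hC β
        · rw [pow_one] at hC h2 hβ ⊢
          rw [jac_prime hp]
          exact GQ_prime hP hP0 (not_mem_of_cop hP.ne_top h2) hC (not_mem_of_cop hP.ne_top hβ)
      · obtain ⟨m, rfl⟩ : ∃ m, i = m + 2 := ⟨i - 2, by omega⟩
        have cle : ∀ A : Ideal (𝓞 F), IsCoprime A (P ^ (m + 2)) → IsCoprime A P := fun A hA =>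
          (IsCoprime.pow_right_iff (by omega)).1 hA
        have h2P := cle _ h2
        have hβP := cle _ hβ
        obtain ⟨γ, C, hγ⟩ := sq_rem' hP hP0 (not_mem_of_cop hP.ne_top h2P) m
        have hC' := hC.mul hβ
        obtain ⟨c1, e1⟩ := hγ _ hC
        obtain ⟨c2, e2⟩ := hγ _ hC'
        have e3 : (fun x : 𝓞 F => ψ (β * (γ ^ 2 * x))) = fun x => (fun y => ψ (γ ^ 2 * y)) (β * x) := by
          funext x
          show ψ _ = ψ _
          congr 1
          ring
        rw [e2, e1, e3, ih m (by omega) (h2P.pow_right) c1 (hβP.pow_right)]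
        have e4 : jac (P ^ (m + 2)) β = jac (P ^ m) β := by
          rw [pow_add, pow_two, jac_mul (pow_ne_zero m hP0) (mul_ne_zero hP0 hP0),
            jac_mul hP0 hP0, jac_prime hp, qc_sq (not_mem_of_cop hP.ne_top hβP), mul_one]
        rw [e4]
        ring
  | @hcp I J hIJ ihI ihJ =>
    intro ψ hC β hβ
    have hI0 : I ≠ 0 := left_ne_zero_of_mul hI
    have hJ0 : J ≠ 0 := right_ne_zero_of_mul hI
    have hf1 : Finite (𝓞 F ⧸ I) := Ideal.finiteQuotientOfFreeOfNeBot _ hI0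
    have hf2 : Finite (𝓞 F ⧸ J) := Ideal.finiteQuotientOfFreeOfNeBot _ hJ0
    have hcop := relp hIJ
    rw [Ideal.isCoprime_iff_exists] at hcop
    obtain ⟨b, hb, c, hc, hbc⟩ := hcop
    have hcb : c + b = 1 := by rw [add_comm]; exact hbc
    have hCJ := Kr.part hb hc hbc hC
    have hCI : Kr I (fun x => ψ (c ^ 2 * x)) := by
      rw [mul_comm] at hC
      exact Kr.part hc hb hcb hC
    have hC' := hC.mul hβ
    rw [GQ_mul hb hc hbc hC, GQ_mul hb hc hbc hC', jac_mul hI0 hJ0]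
    have e1 : ∀ b : 𝓞 F, (fun x : 𝓞 F => ψ (β * (b ^ 2 * x))) =
        fun x => (fun y => ψ (b ^ 2 * y)) (β * x) := by
      intro b
      funext x
      show ψ _ = ψ _
      congr 1
      ring
    rw [e1, e1, ihJ hJ0 h2.of_mul_right_right hCJ hβ.of_mul_right_right,
      ihI hI0 h2.of_mul_right_left hCI hβ.of_mul_right_left]
    ring

end Pool.Agent.K7.H70.RC
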