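import Pool.Agent.K7.H70.RC.A
import Pool.Agent.R430.Q9

/-!
# Additive characters of a number field with a kernel prime to a given ideal
-/

set_option autoImplicit false
set_option linter.unusedSectionVars false

open NumberField FractionalIdeal nonZeroDivisors

namespace Pool.Agent.K7.H70.RC

open Pool.Agent.R430
open Pool.Agent.Y688.QRec

variable {F : Type} [Field F] [NumberField F]

/-- `C` is the largest ideal in the kernel of the character `x ↦ ee (x / δ)` -/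
structure IsW (δ : F) (C : Ideal (𝓞 F)) : Prop where
  ne : δ ≠ 0
  C0 : C ≠ ⊥
  iff : ∀ z : F, (∀ w : 𝓞 F, ∃ n : ℤ, Algebra.trace ℚ F (z * w / δ) = n) ↔ ∃ x ∈ C, (x : F) = z

lemma exists_W {M : Ideal (𝓞 F)} (hM0 : M ≠ 0) (hM1 : M ≠ 1) :
    ∃ (δ : F) (C : Ideal (𝓞 F)), IsW δ C ∧ IsCoprime C M := by
  set D : Ideal (𝓞 F) := differentIdeal ℤ (𝓞 F) with hD
  have hD0 : D ≠ 0 := differentIdeal_ne_bot
  obtain ⟨g, hg⟩ := IsDedekindDomain.exists_sup_span_eq (I := D * M) (J := D) Ideal.mul_le_left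
    (mul_ne_zero hD0 hM0)
  have hgD : g ∈ D := by
    rw [← hg]
    exact (le_sup_right : Ideal.span {g} ≤ _) (Ideal.mem_span_singleton_self g)
  obtain ⟨C, hC⟩ := Ideal.dvd_span_singleton.2 hgD
  have hCM : IsCoprime C M := by
    rw [Ideal.isCoprime_iff_sup_eq, sup_comm]
    rw [hC, ← Ideal.mul_sup] at hg
    have h1 : D * (M ⊔ C) = D * ⊤ := by rw [hg, Ideal.mul_top]
    exact mul_left_cancel₀ hD0 h1
  have hg0 : g ≠ 0 := by
    rintro rfl
    rw [Ideal.span_singleton_eq_bot.2 rfl] at hC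
    have hC0 : C = 0 := by
      rcases mul_eq_zero.1 hC.symm with h | h
      · exact absurd h hD0
      · exact h
    rw [hC0, Ideal.isCoprime_iff_sup_eq, Ideal.zero_eq_bot, bot_sup_eq] at hCM
    exact hM1 (by rw [Ideal.one_eq_top]; exact hCM)
  have hC0 : C ≠ ⊥ := by
    rintro rfl
    rw [← Ideal.zero_eq_bot, mul_zero, Ideal.zero_eq_bot, Ideal.span_singleton_eq_bot] at hC
    exact hg0 hC
  have hgF : (g : F) ≠ 0 := cne hg0
  refine ⟨(g : F), C, ⟨hgF, hC0, fun z => ?_⟩, hCM⟩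
  have h6 : (∀ w : 𝓞 F, ∃ n : ℤ, Algebra.trace ℚ F (z * w / (g : F)) = n) ↔
      z / (g : F) ∈ dual ℤ ℚ (1 : FractionalIdeal (𝓞 F)⁰ F) := by
    rw [mem_dual (@one_ne_zero (FractionalIdeal (𝓞 F)⁰ F) _ _ _)]
    constructor
    · intro h a ha
      obtain ⟨w, hw⟩ := (mem_one_iff _).1 ha
      obtain ⟨n, hn⟩ := h w
      refine ⟨n, ?_⟩
      rw [Algebra.traceForm_apply, ← hw]
      have e : z / (g : F) * algebraMap (𝓞 F) F w = z * w / (g : F) := by
        show z / (g : F) * (w : F) = _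
        ring
      rw [e, hn]
      simp
    · intro h w
      obtain ⟨n, hn⟩ := h (w : F) ((mem_one_iff _).2 ⟨w, rfl⟩)
      refine ⟨n, ?_⟩
      rw [Algebra.traceForm_apply] at hn
      have e : z / (g : F) * (w : F) = z * w / (g : F) := by ring
      rw [← e, ← hn]
      simp
  have h4 := coeIdeal_differentIdeal ℤ ℚ F (𝓞 F)
  rw [← hD] at h4
  have h5 : (dual ℤ ℚ (1 : FractionalIdeal (𝓞 F)⁰ F)) = ((D : FractionalIdeal (𝓞 F)⁰ F))⁻¹ := by
    rw [h4, inv_inv]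
  have hDF : (D : FractionalIdeal (𝓞 F)⁰ F) ≠ 0 := by
    rw [Ne, coeIdeal_eq_zero]
    exact hD0
  have hspan : spanSingleton (𝓞 F)⁰ (g : F) = (D : FractionalIdeal (𝓞 F)⁰ F) * C := by
    rw [← coeIdeal_mul, ← hC, coeIdeal_span_singleton]
  rw [h6, h5]
  constructor
  · intro h
    have h7 : z / (g : F) * g ∈ ((D : FractionalIdeal (𝓞 F)⁰ F))⁻¹ * ((D : FractionalIdeal (𝓞 F)⁰ F) * C) := by
      refine mul_mem_mul h ?_
      rw [← hspan]
      exact mem_spanSingleton_self _ _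
    rw [← mul_assoc, inv_mul_cancel₀ hDF, one_mul, div_mul_cancel₀ _ hgF] at h7
    obtain ⟨x, hx, hxz⟩ := (mem_coeIdeal _).1 h7
    exact ⟨x, hx, hxz⟩
  · rintro ⟨x, hx, rfl⟩
    rw [mem_inv_iff hDF]
    intro y hy
    obtain ⟨y', hy', rfl⟩ := (mem_coeIdeal _).1 hy
    have h7 : y' * x ∈ Ideal.span {g} := by
      rw [hC]
      exact Ideal.mul_mem_mul hy' hx
    rw [Ideal.mem_span_singleton] at h7
    obtain ⟨k, hk⟩ := h7
    refine (mem_one_iff _).2 ⟨k, ?_⟩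
    have h8 := congrArg (fun t : 𝓞 F => (t : F)) hk
    simp only [cm] at h8
    show (k : F) = (x : F) / g * (y' : F)
    field_simp
    linear_combination -h8

section
variable {δ : F} {C : Ideal (𝓞 F)}

lemma IsW.ee_iff (h : IsW δ C) (z : F) : (∀ w : 𝓞 F, ee (z * w / δ) = 1) ↔ ∃ x ∈ C, (x : F) = z := by
  rw [← h.iff]
  exact forall_congr' fun w => ee_eq_one

lemma IsW.ee_mem (h : IsW δ C) {x : 𝓞 F} (hx : x ∈ C) : ee ((x : F) / δ) = 1 := by
  have := (h.ee_iff (x : F)).2 ⟨x, hx, rfl⟩ 1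
  rwa [c1, mul_one] at this

lemma IsW.ee_add_mem (h : IsW δ C) (y : F) {x : 𝓞 F} (hx : x ∈ C) : ee (y + (x : F) / δ) = ee y := by
  rw [ee_add, h.ee_mem hx, mul_one]

lemma IsW.kr (h : IsW δ C) : Kr C (fun x => ee ((x : F) / δ)) := by
  refine ⟨fun x y => ?_, fun z => ?_⟩
  · show ee _ = ee _ * ee _
    rw [← ee_add, cadd, add_div]
  · have h1 := h.ee_iff (z : F)
    simp only [cm]
    rw [h1]
    constructor
    · intro hz
      exact ⟨z, hz, rfl⟩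
    · rintro ⟨x, hx, hxz⟩
      have : x = z := RingOfIntegers.ext hxz
      rwa [← this]

/-- a multiplier of a non-zero ideal is integral -/
lemma int_of_mul {z : F} (hC : C ≠ ⊥) (h : ∀ x ∈ C, ∃ y ∈ C, (y : F) = z * x) : ∃ x : 𝓞 F, (x : F) = z := by
  have h1 : (spanSingleton (𝓞 F)⁰ z) * (C : FractionalIdeal (𝓞 F)⁰ F) ≤ (C : FractionalIdeal (𝓞 F)⁰ F) := by
    rw [spanSingleton_mul_le_iff]
    intro x hx
    obtain ⟨x', hx', rfl⟩ := (mem_coeIdeal _).1 hx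
    obtain ⟨y, hy, hyz⟩ := h x' hx'
    rw [mem_coeIdeal]
    exact ⟨y, hy, hyz⟩
  have hCF : (C : FractionalIdeal (𝓞 F)⁰ F) ≠ 0 := by
    rw [Ne, coeIdeal_eq_zero]
    exact hC
  have h2 : spanSingleton (𝓞 F)⁰ z ≤ 1 := by
    have h3 : ((C : FractionalIdeal (𝓞 F)⁰ F))⁻¹ * ((spanSingleton (𝓞 F)⁰ z) * (C : FractionalIdeal (𝓞 F)⁰ F)) ≤
        ((C : FractionalIdeal (𝓞 F)⁰ F))⁻¹ * (C : FractionalIdeal (𝓞 F)⁰ F) :=
      FractionalIdeal.mul_le.2 fun i hi j hj => mul_mem_mul hi (h1 hj)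
    rw [mul_comm (spanSingleton (𝓞 F)⁰ z), ← mul_assoc, inv_mul_cancel₀ hCF, one_mul] at h3
    exact h3
  have h3 : z ∈ (1 : FractionalIdeal (𝓞 F)⁰ F) := h2 (mem_spanSingleton_self _ _)
  obtain ⟨x, hx⟩ := (mem_one_iff _).1 h3
  exact ⟨x, hx⟩

lemma IsW.mem_of (h : IsW δ C) {z : F} (hz : ∀ w ∈ C, ee (z * w / δ) = 1) : ∃ x : 𝓞 F, (x : F) = z := by
  refine int_of_mul h.C0 fun x hx => ?_
  refine (h.ee_iff (z * x)).1 fun w => ?_
  have := hz (x * w) (C.mul_mem_right _ hx)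
  rw [cm, ← mul_assoc] at this
  exact this

end

end Pool.Agent.K7.H70.RC
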