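import Pool.Agent.K7.H70.RC.B
import Pool.Agent.R430.Q2

/-!
# Positivity of the Gauss sums of the trace forms, general additive characters
-/

set_option autoImplicit false
set_option linter.unusedSectionVars false
set_option linter.unusedDecidableInType false

open NumberField

namespace Pool.Agent.K7.H70.RC

open Pool.Agent.R430
open Pool.Agent.Y688.QRec

variable {F : Type} [Field F] [NumberField F]

section
variable {δ : F} {C : Ideal (𝓞 F)}

lemma kk_spec' (h : IsW δ C) {x : 𝓞 F} (hx : x ∈ C) (z : 𝓞 F) :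
    ((kk δ x z : ℤ) : ℚ) = Algebra.trace ℚ F ((z : F) * x / δ) := by
  obtain ⟨n, hn⟩ := (h.iff (x : F)).2 ⟨x, hx, rfl⟩ z
  rw [mul_comm (x : F) (z : F)] at hn
  unfold kk
  rw [hn]
  simp

lemma kk_add' (h : IsW δ C) {x : 𝓞 F} (hx : x ∈ C) (z z' : 𝓞 F) :
    kk δ x (z + z') = kk δ x z + kk δ x z' := by
  have h1 : ((kk δ x (z + z') : ℤ) : ℚ) = kk δ x z + kk δ x z' := by
    rw [kk_spec' h hx, kk_spec' h hx, kk_spec' h hx, ← map_add]
    congr 1
    rw [cadd]
    ring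
  exact_mod_cast h1

lemma kk_mul' (h : IsW δ C) {x : 𝓞 F} (hx : x ∈ C) (z : 𝓞 F) (M : ℕ) :
    kk δ x ((M : 𝓞 F) * z) = M * kk δ x z := by
  have h1 : ((kk δ x ((M : 𝓞 F) * z) : ℤ) : ℚ) = M * kk δ x z := by
    rw [kk_spec' h hx, kk_spec' h hx]
    have e : (((M : 𝓞 F) * z : 𝓞 F) : F) * (x : F) / δ = ((M : ℚ) : F) * ((z : F) * x / δ) := by
      rw [cm]
      have : (((M : 𝓞 F)) : F) = (M : F) := map_natCast (algebraMap (𝓞 F) F) M
      rw [this]
      push_cast
      ring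
    rw [e, trq]
  exact_mod_cast h1

end

/-- an orthogonal system -/
structure OrC {ι : Type} [Fintype ι] (δ : F) (C : Ideal (𝓞 F)) (c : 𝓞 F) (X : ι → 𝓞 F) (n : ι → ℤ) :
    Prop where
  hδ : IsW δ C
  hX : ∀ i, X i ∈ C
  hc : c ≠ 0
  rank : Module.finrank ℚ F = Fintype.card ι
  orth : ∀ i j, i ≠ j → TT ((c : F) / δ) (X i) (X j) = 0
  self : ∀ i, TT ((c : F) / δ) (X i) (X i) = n i
  ne : ∀ i, n i ≠ 0

section
variable {ι : Type} [Fintype ι] [DecidableEq ι] {δ : F} {C : Ideal (𝓞 F)} {c : 𝓞 F} {X : ι → 𝓞 F}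
  {n : ι → ℤ}

lemma OrC.cne (h : OrC δ C c X n) : (c : F) ≠ 0 := fun h0 => h.hc (RingOfIntegers.ext h0)

lemma OrC.coef (h : OrC δ C c X n) (g : ι → ℚ) (j : ι) :
    TT ((c : F) / δ) (∑ i, (g i : F) * (X i : F)) (X j) = g j * n j := by
  rw [TT_sumG, Finset.sum_eq_single j]
  · rw [h.self]
  · intro i _ hij
    rw [h.orth i j hij, mul_zero]
  · intro hj
    exact absurd (Finset.mem_univ j) hj

lemma OrC.expand (h : OrC δ C c X n) (v : F) :
    v = ∑ i, ((TT ((c : F) / δ) v (X i) / n i : ℚ) : F) * (X i : F) := by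
  have hli : LinearIndependent ℚ (fun i => (X i : F)) := by
    rw [Fintype.linearIndependent_iff]
    intro g hg j
    have h1 := h.coef g j
    have h2 : ∑ i, (g i : F) * (X i : F) = 0 := by
      rw [← hg]
      refine Finset.sum_congr rfl fun i _ => ?_
      rw [Algebra.smul_def]
      rfl
    rw [h2] at h1
    have h3 : TT ((c : F) / δ) 0 (X j) = 0 := by
      unfold TT
      simp
    rw [h3] at h1
    have h4 : (n j : ℚ) ≠ 0 := by exact_mod_cast h.ne j
    exact (mul_eq_zero.1 h1.symm).resolve_right h4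
  have hcard : Fintype.card ι = Module.finrank ℚ F := h.rank.symm
  have hne : Nonempty ι := Fintype.card_pos_iff.1 (by rw [hcard]; exact Module.finrank_pos)
  let B := basisOfLinearIndependentOfCardEqFinrank hli hcard
  have hB : v = ∑ i, ((B.repr v i : ℚ) : F) * (X i : F) := by
    conv_lhs => rw [← B.sum_repr v]
    refine Finset.sum_congr rfl fun i _ => ?_
    rw [coe_basisOfLinearIndependentOfCardEqFinrank, Algebra.smul_def]
    rfl
  have hcoef : ∀ j, TT ((c : F) / δ) v (X j) / n j = B.repr v j := by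
    intro j
    have h4 : (n j : ℚ) ≠ 0 := by exact_mod_cast h.ne j
    rw [div_eq_iff h4]
    conv_lhs => rw [hB]
    exact h.coef _ j
  simp only [hcoef]
  exact hB

lemma OrC.parseval (h : OrC δ C c X n) (v w : F) :
    TT ((c : F) / δ) v w = ∑ i, TT ((c : F) / δ) v (X i) * TT ((c : F) / δ) w (X i) / n i := by
  conv_lhs => rw [h.expand v]
  rw [TT_sumG]
  refine Finset.sum_congr rfl fun i _ => ?_
  rw [TT_comm _ (X i : F) w]
  ring

lemma OrC.kk_half (h : OrC δ C c X n) (z : 𝓞 F) (i : ι) :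
    TT ((c : F) / δ) ((z : F) / (2 * c)) (X i) = kk δ (X i) z / 2 := by
  rw [kk_spec' h.hδ (h.hX i)]
  unfold TT
  have hc := h.cne
  have hδ := h.hδ.1
  have e : (c : F) / δ * ((z : F) / (2 * c)) * (X i : F) = ((1 / 2 : ℚ) : F) * ((z : F) * (X i) / δ) := by
    push_cast
    field_simp
  rw [e, trq]
  ring

lemma OrC.kk_two (h : OrC δ C c X n) (w : 𝓞 F) (i : ι) :
    TT ((c : F) / δ) (w : F) (X i) = kk δ (X i) (2 * c * w) / 2 := by
  rw [kk_spec' h.hδ (h.hX i)]
  unfold TT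
  have e : (c : F) / δ * (w : F) * (X i : F) =
      ((1 / 2 : ℚ) : F) * (((2 * c * w : 𝓞 F) : F) * (X i) / δ) := by
    have e2 : ((2 * c * w : 𝓞 F) : F) = 2 * c * w := by
      show algebraMap (𝓞 F) F (2 * c * w) = _
      rw [map_mul, map_mul, map_ofNat]
    rw [e2]
    push_cast
    ring
  rw [e, trq]
  ring

lemma OrC.quad (h : OrC δ C c X n) (z : 𝓞 F) :
    Algebra.trace ℚ F ((z : F) ^ 2 / (4 * c * δ)) = ∑ i, (kk δ (X i) z : ℚ) ^ 2 / (4 * n i) := by
  have h1 := h.parseval ((z : F) / (2 * c)) ((z : F) / (2 * c))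
  have hc := h.cne
  have hδ := h.hδ.1
  have e : TT ((c : F) / δ) ((z : F) / (2 * c)) ((z : F) / (2 * c)) =
      Algebra.trace ℚ F ((z : F) ^ 2 / (4 * c * δ)) := by
    unfold TT
    congr 1
    field_simp
    ring
  rw [e] at h1
  rw [h1]
  refine Finset.sum_congr rfl fun i _ => ?_
  rw [h.kk_half]
  ring

lemma OrC.cross (h : OrC δ C c X n) (z w : 𝓞 F) :
    Algebra.trace ℚ F ((z : F) * w / δ) = ∑ i, (kk δ (X i) z : ℚ) * kk δ (X i) (2 * c * w) / (2 * n i) := by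
  have h1 := h.parseval ((z : F) / (2 * c)) (w : F)
  have hc := h.cne
  have hδ := h.hδ.1
  have e : TT ((c : F) / δ) ((z : F) / (2 * c)) (w : F) = 1 / 2 * Algebra.trace ℚ F ((z : F) * w / δ) := by
    have : (1 / 2 * Algebra.trace ℚ F ((z : F) * w / δ) : ℚ) =
        Algebra.trace ℚ F (((1 / 2 : ℚ) : F) * ((z : F) * w / δ)) := by rw [trq]
    rw [this]
    unfold TT
    congr 1
    push_cast
    field_simp
  rw [e] at h1
  have h2 : Algebra.trace ℚ F ((z : F) * w / δ) = 2 * ∑ i, TT ((c : F) / δ) ((z : F) / (2 * c)) (X i) *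
      TT ((c : F) / δ) (w : F) (X i) / n i := by linarith
  rw [h2, Finset.mul_sum]
  refine Finset.sum_congr rfl fun i _ => ?_
  rw [h.kk_half, h.kk_two]
  ring

lemma OrC.ee_quad (h : OrC δ C c X n) (z : 𝓞 F) :
    ee ((z : F) ^ 2 / (4 * c * δ)) = ∏ i, EE (n i) (kk δ (X i) z) := by
  unfold ee EE
  rw [h.quad, ← Complex.exp_sum]
  congr 1
  push_cast
  rw [Finset.mul_sum]

lemma OrC.ee_cross (h : OrC δ C c X n) (z w : 𝓞 F) :
    ee ((z : F) * w / δ) = ∏ i, EX (n i) (kk δ (X i) z) (kk δ (X i) (2 * c * w)) := by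
  unfold ee EX
  rw [h.cross, ← Complex.exp_sum]
  congr 1
  push_cast
  rw [Finset.mul_sum]

/-- the coordinates modulo `M` -/
noncomputable def phC (h : OrC δ C c X n) (M : ℕ) : 𝓞 F →+ (ι → ZMod M) :=
  AddMonoidHom.mk' (fun z i => ((kk δ (X i) z : ℤ) : ZMod M)) (fun z z' => by
    funext i
    show ((kk δ (X i) (z + z') : ℤ) : ZMod M) = ((kk δ (X i) z : ℤ) : ZMod M) + ((kk δ (X i) z' : ℤ) : ZMod M)
    rw [kk_add' h.hδ (h.hX i)]
    push_cast
    rfl)

variable {M : ℕ}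

lemma OrC.ff_phi (h : OrC δ C c X n) (hM0 : M ≠ 0) (hM : ∀ i, 2 * n i ∣ (M : ℤ)) (z : 𝓞 F) :
    fG n (phC h M z) = ee ((z : F) ^ 2 / (4 * c * δ)) := by
  rw [h.ee_quad]
  unfold fG
  refine Finset.prod_congr rfl fun i _ => ?_
  exact EE_cast (h.ne i) hM0 (hM i) _

lemma OrC.ff_shift (h : OrC δ C c X n) (hM0 : M ≠ 0) (hM : ∀ i, 2 * n i ∣ (M : ℤ)) (y : ι → ZMod M)
    {w : 𝓞 F} (hw : w ∈ C) : fG n (y + phC h M (2 * c * w)) = fG n y * PsG δ c X n y w := by
  have hNe : NeZero M := ⟨hM0⟩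
  have h1 : ∀ i, EE (n i) (((y + phC h M (2 * c * w)) i).val : ℤ) =
      EE (n i) ((y i).val : ℤ) * EX (n i) ((y i).val : ℤ) (kk δ (X i) (2 * c * w)) *
        EE (n i) (kk δ (X i) (2 * c * w)) := by
    intro i
    have e : (y + phC h M (2 * c * w)) i =
        ((((y i).val : ℤ) + kk δ (X i) (2 * c * w) : ℤ) : ZMod M) := by
      push_cast
      rw [ZMod.natCast_zmod_val]
      rfl
    rw [e, EE_cast (h.ne i) hM0 (hM i), EE_add _ _ _ (h.ne i)]
  have h2 : ∏ i, EE (n i) (kk δ (X i) (2 * c * w)) = 1 := by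
    rw [← h.ee_quad]
    have hc := h.cne
    have hδ := h.hδ.1
    have e : ((2 * c * w : 𝓞 F) : F) ^ 2 / (4 * c * δ) = ((c * w ^ 2 : 𝓞 F) : F) / δ := by
      have e2 : ((2 * c * w : 𝓞 F) : F) = 2 * c * w := by
        show algebraMap (𝓞 F) F (2 * c * w) = _
        rw [map_mul, map_mul, map_ofNat]
      have e3 : ((c * w ^ 2 : 𝓞 F) : F) = c * (w : F) ^ 2 := by
        show algebraMap (𝓞 F) F (c * w ^ 2) = _
        rw [map_mul, map_pow]
      rw [e2, e3]
      field_simp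
      ring
    rw [e]
    exact h.hδ.ee_mem (C.mul_mem_left _ (Ideal.pow_mem_of_mem _ hw 2 two_pos))
  unfold fG PsG
  rw [Finset.prod_congr rfl fun i _ => h1 i, Finset.prod_mul_distrib, Finset.prod_mul_distrib, h2, mul_one]

lemma OrC.PsG_add (h : OrC δ C c X n) (y : ι → ZMod M) (w w' : 𝓞 F) :
    PsG δ c X n y (w + w') = PsG δ c X n y w * PsG δ c X n y w' := by
  unfold PsG
  rw [← Finset.prod_mul_distrib]
  refine Finset.prod_congr rfl fun i _ => ?_
  rw [mul_add, kk_add' h.hδ (h.hX i), EX_add]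

lemma OrC.PsG_iff (h : OrC δ C c X n) (hM0 : M ≠ 0) (hM : ∀ i, 2 * n i ∣ (M : ℤ)) (y : ι → ZMod M) :
    (∀ w ∈ C, PsG δ c X n y w = 1) ↔ ∃ z, phC h M z = y := by
  have hNe : NeZero M := ⟨hM0⟩
  have hc := h.cne
  have hδ := h.hδ.1
  constructor
  · intro hw
    set ρ : F := ∑ i, ((((y i).val : ℤ) / (2 * n i) : ℚ) : F) * (X i : F) with hρ
    have h1 : ∀ w ∈ C, ee ((2 * c * ρ) * (w : F) / δ) = 1 := by
      intro w hwC
      rw [← hw w hwC]
      unfold ee PsG EX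
      rw [← Complex.exp_sum]
      congr 1
      have h2 : Algebra.trace ℚ F ((2 * c * ρ) * w / δ) = 2 * TT ((c : F) / δ) ρ w := by
        have : (2 * TT ((c : F) / δ) ρ w : ℚ) = Algebra.trace ℚ F (((2 : ℚ) : F) * ((c : F) / δ * ρ * w)) := by
          rw [trq]
          rfl
        rw [this]
        congr 1
        push_cast
        ring
      rw [h2, hρ, TT_sumG]
      have h3 : ∀ i, TT ((c : F) / δ) (X i : F) (w : F) = kk δ (X i) (2 * c * w) / 2 := by
        intro i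
        rw [TT_comm, h.kk_two]
      simp only [h3]
      push_cast
      rw [Finset.mul_sum, Finset.mul_sum]
      refine Finset.sum_congr rfl fun i _ => ?_
      ring
    obtain ⟨z, hz⟩ := h.hδ.mem_of h1
    refine ⟨z, ?_⟩
    funext i
    show ((kk δ (X i) z : ℤ) : ZMod M) = y i
    have h4 := h.kk_half z i
    have h5 : (z : F) / (2 * c) = ρ := by
      rw [hz]
      field_simp
    rw [h5, hρ, h.coef] at h4
    have hn : (n i : ℚ) ≠ 0 := by exact_mod_cast h.ne i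
    have h6 : ((kk δ (X i) z : ℤ) : ℚ) = (((y i).val : ℤ) : ℚ) := by
      field_simp at h4
      linarith
    have h7 : kk δ (X i) z = ((y i).val : ℤ) := by exact_mod_cast h6
    rw [h7]
    push_cast
    exact ZMod.natCast_zmod_val _
  · rintro ⟨z, rfl⟩ w hwC
    have h1 : PsG δ c X n (phC h M z) w = ee ((z : F) * w / δ) := by
      rw [h.ee_cross]
      unfold PsG
      refine Finset.prod_congr rfl fun i _ => ?_
      obtain ⟨b, hb⟩ := val_cast M hM0 (kk δ (X i) z)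
      have e : (((phC h M z) i).val : ℤ) = kk δ (X i) z + M * b := hb
      rw [e]
      exact EX_M' (h.ne i) (hM i) _ _ _
    rw [h1]
    have e : (z : F) * w / δ = ((z * w : 𝓞 F) : F) / δ := by
      have : ((z * w : 𝓞 F) : F) = z * w := map_mul (algebraMap (𝓞 F) F) z w
      rw [this]
    rw [e]
    exact h.hδ.ee_mem (C.mul_mem_left _ hwC)

lemma OrC.sum_range (h : OrC δ C c X n) (hM0 : M ≠ 0) (hM : ∀ i, 2 * n i ∣ (M : ℤ)) [NeZero M] :
    ∑ᶠ y : (phC h M).range, fG n (y : ι → ZMod M) = ∑ y : ι → ZMod M, fG n y := by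
  classical
  let φ : 𝓞 F →+ (ι → ZMod M) := (phC h M).comp (AddMonoidHom.mulLeft (2 * c))
  have hφ : ∀ w, φ w = phC h M (2 * c * w) := fun w => rfl
  let H : AddSubgroup (ι → ZMod M) := (Submodule.toAddSubgroup C).map φ
  have hH : ∀ y : ι → ZMod M, y ∈ H ↔ ∃ w ∈ C, φ w = y := fun y => AddSubgroup.mem_map
  let _ : Fintype H := Fintype.ofFinite _
  let _ : Fintype (phC h M).range := Fintype.ofFinite _
  set S := ∑ y : ι → ZMod M, fG n y with hS
  set N1 : ℂ := (Fintype.card H : ℂ) with hN1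
  have hN0 : N1 ≠ 0 := by
    rw [hN1]
    exact_mod_cast Fintype.card_pos.ne'
  have h1 : ∑ x : H, ∑ y : ι → ZMod M, fG n (y + (x : ι → ZMod M)) = N1 * S := by
    have : ∀ x : H, ∑ y : ι → ZMod M, fG n (y + (x : ι → ZMod M)) = S := by
      intro x
      rw [hS, ← Equiv.sum_comp (Equiv.addRight (x : ι → ZMod M)) (fun y => fG n y)]
      rfl
    rw [Finset.sum_congr rfl fun x _ => this x, Finset.sum_const, Finset.card_univ, nsmul_eq_mul]
  rw [Finset.sum_comm] at h1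
  have h4 : ∀ y : ι → ZMod M, ∑ x : H, fG n (y + (x : ι → ZMod M)) =
      N1 * (if y ∈ (phC h M).range then fG n y else 0) := by
    intro y
    by_cases hy : y ∈ (phC h M).range
    · rw [if_pos hy]
      have h5 := (h.PsG_iff hM0 hM y).2 hy
      have h6 : ∀ x : H, fG n (y + (x : ι → ZMod M)) = fG n y := by
        intro x
        obtain ⟨w, hw, hwx⟩ := (hH _).1 x.2
        rw [← hwx, hφ, h.ff_shift hM0 hM y hw, h5 w hw, mul_one]
      rw [Finset.sum_congr rfl fun x _ => h6 x, Finset.sum_const, Finset.card_univ, nsmul_eq_mul]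
    · rw [if_neg hy, mul_zero]
      have h5 : ¬ ∀ w ∈ C, PsG δ c X n y w = 1 := fun h6 => hy ((h.PsG_iff hM0 hM y).1 h6)
      push Not at h5
      obtain ⟨w0, hw0, hne⟩ := h5
      let x0 : H := ⟨φ w0, (hH _).2 ⟨w0, hw0, rfl⟩⟩
      have h6 : ∑ x : H, fG n (y + (x : ι → ZMod M)) = (∑ x : H, fG n (y + (x : ι → ZMod M))) * PsG δ c X n y w0 := by
        conv_lhs => rw [← Equiv.sum_comp (Equiv.addRight x0) (fun x : H => fG n (y + (x : ι → ZMod M)))]
        rw [Finset.sum_mul]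
        refine Finset.sum_congr rfl fun x _ => ?_
        obtain ⟨w, hw, hwx⟩ := (hH _).1 x.2
        have e : y + ((Equiv.addRight x0 x : H) : ι → ZMod M) = y + phC h M (2 * c * (w + w0)) := by
          show y + ((x : ι → ZMod M) + φ w0) = _
          rw [← hwx, ← map_add, hφ]
        rw [e, h.ff_shift hM0 hM y (C.add_mem hw hw0), h.PsG_add, ← mul_assoc,
          ← h.ff_shift hM0 hM y hw, ← hφ, hwx]
      have h7 : (∑ x : H, fG n (y + (x : ι → ZMod M))) * (PsG δ c X n y w0 - 1) = 0 := by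
        rw [mul_sub, ← h6, mul_one, sub_self]
      exact (mul_eq_zero.1 h7).resolve_right (sub_ne_zero.2 hne)
  rw [Finset.sum_congr rfl fun y _ => h4 y, ← Finset.mul_sum] at h1
  have h5 := mul_left_cancel₀ hN0 h1
  rw [← h5, finsum_eq_sum_of_fintype, ← Finset.sum_filter]
  refine (Finset.sum_subtype _ (fun y => ?_) (fun y => fG n y)).symm
  rw [Finset.mem_filter]
  simp

theorem OrC.pos (h : OrC δ C c X n) (hall : ∀ (M : ℕ) [NeZero M], (∀ i, 2 * n i ∣ (M : ℤ)) →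
    Pos (∑ y : ι → ZMod M, fG n y)) :
    Pos (PS (Ideal.span {2 * c} * C) (fun z => ee ((z : F) ^ 2 / (4 * c * δ)))) := by
  classical
  obtain ⟨M, hM0, hM⟩ : ∃ M : ℕ, M ≠ 0 ∧ ∀ i, 2 * n i ∣ (M : ℤ) := by
    refine ⟨2 * ∏ i, (n i).natAbs, ?_, fun i => ?_⟩
    · refine mul_ne_zero two_ne_zero (Finset.prod_ne_zero_iff.2 fun i _ => ?_)
      exact Int.natAbs_ne_zero.2 (h.ne i)
    · push_cast
      refine mul_dvd_mul_left 2 ?_
      have h1 : ((n i).natAbs : ℤ) ∣ ∏ i, ((n i).natAbs : ℤ) :=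
        Finset.dvd_prod_of_mem (fun i => ((n i).natAbs : ℤ)) (Finset.mem_univ i)
      have h2 : n i ∣ ((n i).natAbs : ℤ) := Int.dvd_natAbs.2 dvd_rfl
      have h3 := h2.trans h1
      simpa using h3
  have hNe : NeZero M := ⟨hM0⟩
  have hc2 : (2 * c * (M : 𝓞 F)) ≠ 0 := mul_ne_zero (mul_ne_zero two_ne_zero h.hc) (Nat.cast_ne_zero.2 hM0)
  set I : Ideal (𝓞 F) := Ideal.span {2 * c * (M : 𝓞 F)} * C with hI
  have hI0 : I ≠ ⊥ := by
    rw [hI, ← Ideal.zero_eq_bot]
    refine mul_ne_zero ?_ h.hδ.C0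
    rw [Ideal.zero_eq_bot, Ne, Ideal.span_singleton_eq_bot]
    exact hc2
  have hfin : Finite (𝓞 F ⧸ I) := Ideal.finiteQuotientOfFreeOfNeBot _ hI0
  set g : 𝓞 F → ℂ := fun z => ee ((z : F) ^ 2 / (4 * c * δ)) with hg
  have hper : Per (Ideal.span {2 * c} * C) g := by
    intro x y hxy
    rw [Ideal.mem_span_singleton_mul] at hxy
    obtain ⟨u, huC, hu⟩ := hxy
    have hc := h.cne
    have hδ := h.hδ.1
    have e : (x : F) = y + 2 * c * u := by
      have h1 := congrArg (fun z : 𝓞 F => (z : F)) hu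
      have e1 : (((x - y : 𝓞 F)) : F) = x - y := map_sub (algebraMap (𝓞 F) F) x y
      have e2 : ((2 * c * u : 𝓞 F) : F) = 2 * c * u := by
        show algebraMap (𝓞 F) F (2 * c * u) = _
        rw [map_mul, map_mul, map_ofNat]
      simp only [e1, e2] at h1
      linear_combination -h1
    have e3 : (x : F) ^ 2 / (4 * c * δ) = (y : F) ^ 2 / (4 * c * δ) + ((y * u + c * u ^ 2 : 𝓞 F) : F) / δ := by
      have e4 : ((y * u + c * u ^ 2 : 𝓞 F) : F) = y * u + c * u ^ 2 := by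
        show algebraMap (𝓞 F) F (y * u + c * u ^ 2) = _
        rw [map_add, map_mul, map_mul, map_pow]
      rw [e4, e]
      field_simp
      ring
    show ee _ = ee _
    rw [e3]
    exact h.hδ.ee_add_mem _ (C.add_mem (C.mul_mem_left _ huC)
      (C.mul_mem_left _ (Ideal.pow_mem_of_mem _ huC 2 two_pos)))
  have hkill : ∀ x ∈ I, phC h M x = 0 := by
    intro x hx
    have hx' := (Ideal.mul_le_left : I ≤ _) hx
    rw [Ideal.mem_span_singleton] at hx'
    obtain ⟨u, rfl⟩ := hx'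
    funext i
    show ((kk δ (X i) (2 * c * (M : 𝓞 F) * u) : ℤ) : ZMod M) = 0
    have e : 2 * c * (M : 𝓞 F) * u = (M : 𝓞 F) * (2 * c * u) := by ring
    rw [e, kk_mul' h.hδ (h.hX i)]
    push_cast
    rw [ZMod.natCast_self, zero_mul]
  have hle : I ≤ Ideal.span {2 * c} * C :=
    Ideal.mul_mono_left (Ideal.span_singleton_le_span_singleton.2 (Dvd.intro _ rfl))
  obtain ⟨n', hn', hmono⟩ := PS_mono hle hper
  have h1 : PS I g = ∑ᶠ x : 𝓞 F ⧸ I, fG n (liftI _ (phC h M) hkill x) := by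
    refine PS_eq (fun x => fG n (liftI _ (phC h M) hkill x)) fun x => ?_
    show fG n (liftI _ (phC h M) hkill (Ideal.Quotient.mk _ x)) = g x
    rw [liftI_mk, h.ff_phi hM0 hM]
  rw [sum_hom (liftI _ (phC h M) hkill) (fun y => fG n y)] at h1
  have hr : (liftI _ (phC h M) hkill).range = (phC h M).range := by
    ext y
    constructor
    · rintro ⟨x, rfl⟩
      exact ⟨x.out, rfl⟩
    · rintro ⟨x, rfl⟩
      exact ⟨Ideal.Quotient.mk _ x, liftI_mk _ _ _ x⟩
  rw [hr, h.sum_range hM0 hM] at h1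
  have hpos := hall M hM
  have hker : 0 < Nat.card (liftI I (phC h M) hkill).ker := Nat.card_pos
  have hP := (Pos.nat hker).mul hpos
  rw [← h1, hmono] at hP
  have h2 := hP.div (Pos.nat hn')
  have hn0 : (n' : ℂ) ≠ 0 := by exact_mod_cast hn'.ne'
  rwa [mul_div_cancel_left₀ _ hn0] at h2

end

end Pool.Agent.K7.H70.RC
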