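import Pool.Agent.K7.H70.RC.C

/-!
# Positivity of the Gauss sums of the trace forms, general additive characters (2)
-/

set_option autoImplicit false
set_option linter.unusedSectionVars false

open NumberField

namespace Pool.Agent.K7.H70.RC

open Pool.Agent.R430
open Pool.Agent.Y688.QRec

variable {F : Type} [Field F] [NumberField F]

lemma exists_mult_mem {C : Ideal (𝓞 F)} (hC : C ≠ ⊥) (x : F) :
    ∃ (N : ℤ) (X : 𝓞 F), N ≠ 0 ∧ X ∈ C ∧ (X : F) = N * x := by
  obtain ⟨N, X, hN, hX⟩ := exists_mult x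
  have h1 := Ideal.absNorm_mem C
  have h0 : (Ideal.absNorm C : ℤ) ≠ 0 := by
    have : Ideal.absNorm C ≠ 0 := by
      rw [Ne, Ideal.absNorm_eq_zero_iff]
      exact hC
    exact_mod_cast this
  refine ⟨(Ideal.absNorm C : ℤ) * N, (Ideal.absNorm C : 𝓞 F) * X, mul_ne_zero h0 hN,
    C.mul_mem_right _ h1, ?_⟩
  rw [cm, hX]
  have : (((Ideal.absNorm C : 𝓞 F)) : F) = ((Ideal.absNorm C : ℕ) : F) :=
    map_natCast (algebraMap (𝓞 F) F) _
  rw [this]
  push_cast
  ring

/-- **Positivity of the Gauss sums.** -/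
theorem gauss_posC {a : F} (ha : a ^ 2 = -3) {r : ℕ} (hF : Module.finrank ℚ F = 2 * r) {δ : F}
    {C : Ideal (𝓞 F)} (hδ : IsW δ C) {c : 𝓞 F} (hc : c ≠ 0) :
    Pos (PS (Ideal.span {2 * c} * C) (fun z => ee ((z : F) ^ 2 / (4 * c * δ)))) := by
  have hcF : (c : F) ≠ 0 := fun h0 => hc (RingOfIntegers.ext h0)
  obtain ⟨x, hx⟩ := OL.exists (t := (c : F) / δ) ha (div_ne_zero hcF hδ.1) (s := r) hF.ge
  set t := (c : F) / δ with htdef
  let Y : Fin r × Bool → F := fun p => if p.2 then snd t a (x p.1) else x p.1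
  have hYo : ∀ p q, p ≠ q → TT t (Y p) (Y q) = 0 := by
    rintro ⟨i, b⟩ ⟨j, b'⟩ hpq
    by_cases hij : i = j
    · subst hij
      cases b <;> cases b'
      · exact absurd rfl hpq
      · show TT t (x i) (snd t a (x i)) = 0
        rw [TT_comm]
        exact snd_orth t a (x i)
      · show TT t (snd t a (x i)) (x i) = 0
        exact snd_orth t a (x i)
      · exact absurd rfl hpq
    · have o1 := hx.o1 i j hij
      have o2 := hx.o2 i j hij
      have o1' := hx.o1 j i (Ne.symm hij)
      have o2' := hx.o2 j i (Ne.symm hij)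
      have o3 : TT t (a * x i) (a * x j) = 0 := by rw [TT_a ha, o1, mul_zero]
      cases b <;> cases b'
      · exact o1
      · show TT t (x i) (snd t a (x j)) = 0
        rw [TT_comm]
        exact snd_r _ _ o1' o2'
      · show TT t (snd t a (x i)) (x j) = 0
        exact snd_r _ _ o1 o2
      · show TT t (snd t a (x i)) (snd t a (x j)) = 0
        refine snd_r _ _ ?_ ?_
        · rw [TT_comm]
          exact snd_r _ _ o1' o2'
        · rw [TT_comm]
          refine snd_r _ _ ?_ ?_
          · rw [TT_a', TT_comm] at o2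
            rw [TT_comm]
            rw [TT_a', TT_comm]
            exact o2
          · rw [TT_comm]; exact o3
  have hYn : ∀ i, TT t (Y (i, true)) (Y (i, true)) * TT t (Y (i, false)) (Y (i, false)) < 0 := by
    intro i
    show TT t (snd t a (x i)) (snd t a (x i)) * TT t (x i) (x i) < 0
    rw [snd_self ha]
    have h0 := hx.ne i
    have h2 : 0 < (TT t (x i) (x i)) ^ 2 := by positivity
    have h3 : 0 < (TT t (x i) (a * x i)) ^ 2 + 3 * (TT t (x i) (x i)) ^ 2 := by
      nlinarith [sq_nonneg (TT t (x i) (a * x i))]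
    nlinarith [mul_pos h2 h3]
  choose N X hN hXC hX using fun p => exists_mult_mem hδ.C0 (Y p)
  have key : ∀ (N N' : ℤ) (x y : F), TT t (N * x) (N' * y) = (N * N' : ℚ) * TT t x y := by
    intro N N' x y
    rw [TT_z, TT_comm, TT_z, TT_comm]
    ring
  have hint : ∀ i, ∃ n : ℤ, TT t (X i) (X i) = n := by
    intro i
    obtain ⟨n, hn⟩ := (hδ.iff ((c * X i : 𝓞 F) : F)).2 ⟨_, C.mul_mem_left _ (hXC i), rfl⟩ (X i)
    refine ⟨n, ?_⟩
    rw [← hn]
    unfold TT
    congr 1
    have e : ((c * X i : 𝓞 F) : F) = c * X i := map_mul (algebraMap (𝓞 F) F) _ _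
    rw [e, htdef]
    ring
  choose n hn using hint
  have hsq : ∀ N : ℤ, N ≠ 0 → (0 : ℚ) < N * N := by
    intro N hN
    have : (N : ℚ) ≠ 0 := by exact_mod_cast hN
    exact mul_self_pos.2 this
  have hneg : ∀ i, n (i, true) * n (i, false) < 0 := by
    intro i
    have h1 := hYn i
    have h2 : TT t (X (i, true)) (X (i, true)) * TT t (X (i, false)) (X (i, false)) < 0 := by
      rw [hX, hX, key, key]
      have h3 := mul_pos (hsq _ (hN (i, true))) (hsq _ (hN (i, false)))
      nlinarith
    rw [hn, hn] at h2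
    exact_mod_cast h2
  have hne : ∀ p, n p ≠ 0 := by
    rintro ⟨i, b⟩ h0
    have := hneg i
    cases b
    · rw [h0, mul_zero] at this
      exact lt_irrefl _ this
    · rw [h0, zero_mul] at this
      exact lt_irrefl _ this
  have h : OrC δ C c X n := ⟨hδ, hXC, hc, by
      rw [hF, Fintype.card_prod, Fintype.card_fin, Fintype.card_bool, mul_comm], fun p q hpq => by
      rw [hX, hX, key, hYo p q hpq, mul_zero], hn, hne⟩
  exact h.pos fun M _ hM => sum_pair_pos hne hM hneg

end Pool.Agent.K7.H70.RC
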