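import Pool.Agent.K7.H70.RC.D

/-!
# The reciprocity law without a condition on the different
-/

set_option autoImplicit false
set_option linter.unusedSectionVars false

open NumberField

namespace Pool.Agent.K7.H70.RC

open Pool.Agent.R430
open Pool.Agent.Y688.QRec

variable {F : Type} [Field F] [NumberField F]

/-- `δ` generates the different at the primes dividing `m`, and is a multiple of the inverse different -/
structure IsDw (δ : F) (m : 𝓞 F) : Prop where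
  ne : δ ≠ 0
  int : ∀ x : 𝓞 F, ee ((x : F) / δ) = 1
  mem : ∀ z : F, (∃ x : 𝓞 F, (x : F) = m * z) → (∀ w : 𝓞 F, ee (z * w / δ) = 1) →
    ∃ x : 𝓞 F, (x : F) = z

section
variable {δ : F} {m : 𝓞 F}

lemma IsDw.ee_add (hδ : IsDw δ m) (y : F) (x : 𝓞 F) : ee (y + (x : F) / δ) = ee y := by
  rw [Pool.Agent.Y688.QRec.ee_add, hδ.int, mul_one]

lemma IsDw.HH_per (hδ : IsDw δ m) (u : 𝓞 F) {n : 𝓞 F} (hn : n ≠ 0) :
    Per (Ideal.span {2 * n}) (fun y : 𝓞 F => ee ((u : F) * (y : F) ^ 2 / (4 * n * δ))) := by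
  intro x y hxy
  obtain ⟨k, rfl⟩ := of_dvd_sub hxy
  have hn' := cne hn
  have hδ' := hδ.1
  show ee _ = ee _
  have e : (u : F) * ((y + 2 * n * k : 𝓞 F) : F) ^ 2 / (4 * n * δ) = (u : F) * (y : F) ^ 2 / (4 * n * δ) +
      ((u * (y * k + n * k ^ 2) : 𝓞 F) : F) / δ := by
    simp only [cm, cadd, cp, c2]
    field_simp
    ring
  rw [e, hδ.ee_add]

lemma IsDw.HH_mul (hδ : IsDw δ m) (u : 𝓞 F) {α β : 𝓞 F} (hα : α ≠ 0) (hβ : β ≠ 0)
    (h : IsCoprime (2 * α) β) : HH δ u (α * β) = gg δ (u * α) β * HH δ (u * β) α := by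
  have h2α : (2 * α : 𝓞 F) ≠ 0 := mul_ne_zero two_ne_zero hα
  have hf1 := finite_quot h2α
  have hf2 := finite_quot hβ
  have hαF := cne hα
  have hβF := cne hβ
  have hδF := hδ.1
  have hper := hδ.HH_per u (mul_ne_zero hα hβ)
  have e0 : (2 * (α * β) : 𝓞 F) = 2 * α * β := by ring
  unfold HH
  rw [e0] at hper ⊢
  rw [PS_crt h hper]
  unfold gg
  rw [mul_comm (PS (Ideal.span {β}) _), ← PS_const_mul]
  refine PS_congr fun y => ?_
  rw [mul_comm _ (ee _), ← PS_const_mul]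
  refine PS_congr fun z => ?_
  have e : (u : F) * ((2 * α * y + β * z : 𝓞 F) : F) ^ 2 / (4 * ((α * β : 𝓞 F) : F) * δ) =
      ((u * α : 𝓞 F) : F) * (y : F) ^ 2 / (β * δ) + ((u * β : 𝓞 F) : F) * (z : F) ^ 2 / (4 * α * δ) +
      ((u * y * z : 𝓞 F) : F) / δ := by
    simp only [cm, cadd, c2]
    field_simp
    ring
  rw [e, hδ.ee_add, Pool.Agent.Y688.QRec.ee_add]

lemma IsDw.HH_cong (hδ : IsDw δ m) {u v : 𝓞 F} (h : 4 ∣ u - v) : HH δ u 1 = HH δ v 1 := by
  obtain ⟨k, hk⟩ := h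
  have hu : u = v + 4 * k := by linear_combination hk
  subst hu
  have hδF := hδ.1
  unfold HH
  refine PS_congr fun y => ?_
  have e : ((v + 4 * k : 𝓞 F) : F) * (y : F) ^ 2 / (4 * ((1 : 𝓞 F) : F) * δ) =
      (v : F) * (y : F) ^ 2 / (4 * ((1 : 𝓞 F) : F) * δ) + ((k * y ^ 2 : 𝓞 F) : F) / δ := by
    simp only [cm, cadd, cp, c4, c1]
    field_simp
  rw [e, hδ.ee_add]

lemma IsDw.HH_sq (hδ : IsDw δ m) {u s : 𝓞 F} (hs : IsCoprime s 2) : HH δ (u * s ^ 2) 1 = HH δ u 1 := by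
  obtain ⟨p, q, hpq⟩ := hs
  have hδF := hδ.1
  have h1 : s * p - 1 ∈ Ideal.span {2 * (1 : 𝓞 F)} := by
    rw [Ideal.mem_span_singleton]
    exact ⟨-q, by linear_combination hpq⟩
  unfold HH
  rw [← PS_mul (hδ.HH_per u (one_ne_zero)) h1]
  refine PS_congr fun y => ?_
  have e : ((u * s ^ 2 : 𝓞 F) : F) * (y : F) ^ 2 / (4 * ((1 : 𝓞 F) : F) * δ) =
      (u : F) * ((s * y : 𝓞 F) : F) ^ 2 / (4 * ((1 : 𝓞 F) : F) * δ) := by
    simp only [cm, cp]
    ring
  rw [e]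

/-- the character modulo a divisor of `m` -/
lemma IsDw.kr (hδ : IsDw δ m) {n : 𝓞 F} (hn : n ≠ 0) (hnm : n ∣ m) :
    Kr (Ideal.span {n}) (fun x => ee ((x : F) / (n * δ))) := by
  have hn' := cne hn
  have hδF := hδ.ne
  refine ⟨fun x y => ?_, fun z => ⟨fun hz w => ?_, fun hw => ?_⟩⟩
  · show ee _ = ee _ * ee _
    rw [← Pool.Agent.Y688.QRec.ee_add, cadd, add_div]
  · rw [Ideal.mem_span_singleton] at hz
    obtain ⟨k, rfl⟩ := hz
    have e : ((n * k * w : 𝓞 F) : F) / (n * δ) = ((k * w : 𝓞 F) : F) / δ := by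
      simp only [cm]
      field_simp
    rw [e, hδ.int]
  · obtain ⟨k, rfl⟩ := hnm
    obtain ⟨x, hx⟩ := hδ.mem ((z : F) / n) ⟨k * z, by simp only [cm]; field_simp⟩ (fun w => by
      rw [← hw w]
      congr 1
      simp only [cm]
      field_simp)
    rw [Ideal.mem_span_singleton]
    refine ⟨x, ?_⟩
    apply RingOfIntegers.ext
    rw [cm, hx]
    field_simp

lemma IsDw.gg_jac (hδ : IsDw δ m) {n : 𝓞 F} (hn : n ≠ 0) (hnm : n ∣ m) (h2 : IsCoprime n 2)
    {β : 𝓞 F} (hβ : IsCoprime β n) : gg δ β n = jac (Ideal.span {n}) β * gg δ 1 n := by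
  have hn' := cne hn
  have h1 := GQ_jac (I := Ideal.span {n}) (by
    rw [Ideal.zero_eq_bot, Ne, Ideal.span_singleton_eq_bot]; exact hn) (span_cop h2.symm)
    (hδ.kr hn hnm) (span_cop hβ)
  have e1 : GQ (Ideal.span {n}) (fun x : 𝓞 F => ee (((β * x : 𝓞 F) : F) / (n * δ))) = gg δ β n := by
    unfold GQ gg
    refine PS_congr fun y => ?_
    simp only [cm, cp]
  have e2 : GQ (Ideal.span {n}) (fun x : 𝓞 F => ee ((x : F) / (n * δ))) = gg δ 1 n := by
    unfold GQ gg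
    refine PS_congr fun y => ?_
    simp only [cp, c1, one_mul]
  rw [e1, e2] at h1
  exact h1

end

/-- the new generator -/
lemma IsW.isDw {δ : F} {C : Ideal (𝓞 F)} (h : IsW δ C) {m s k : 𝓞 F} (hs : s ∈ C) (hs0 : s ≠ 0)
    (hsk : s + m * k = 1) : IsDw (δ / (s : F) ^ 2) m := by
  have hsF := cne hs0
  have hδ := h.ne
  refine ⟨div_ne_zero hδ (pow_ne_zero 2 hsF), fun x => ?_, fun z hz hw => ?_⟩
  · have e : (x : F) / (δ / (s : F) ^ 2) = ((s * (s * x) : 𝓞 F) : F) / δ := by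
      simp only [cm]
      field_simp
    rw [e]
    exact h.ee_mem (C.mul_mem_right _ hs)
  · obtain ⟨x, hx⟩ := hz
    obtain ⟨y, hy, hyz⟩ := (h.ee_iff (z * (s : F) ^ 2)).1 (fun w => by
      rw [← hw w]
      congr 1
      field_simp)
    refine ⟨y + 2 * s * k * x + m * k ^ 2 * x, ?_⟩
    have h1 : (s : F) + m * k = 1 := by
      have := congrArg (fun t : 𝓞 F => (t : F)) hsk
      simp only [cadd, cm, c1] at this
      exact this
    simp only [cadd, cm, cp, c2]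
    rw [hyz, hx]
    linear_combination (z * ((s : F) + m * k + 1)) * h1

/-- decomposition of the sum modulo `2 c C` -/
lemma P_split {δ : F} {C : Ideal (𝓞 F)} (h : IsW δ C) {m s k c e : 𝓞 F} (hs : s ∈ C) (hs0 : s ≠ 0)
    (hsk : s + m * k = 1) (hc : c ≠ 0) (hm : m = 4 * c * e) :
    PS (Ideal.span {2 * c} * C) (fun z : 𝓞 F => ee ((z : F) ^ 2 / (4 * c * δ))) =
      GQ C (fun x => ee (((c * x : 𝓞 F) : F) / δ)) * HH (δ / (s : F) ^ 2) 1 c := by
  have hsF := cne hs0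
  have hδ := h.ne
  have hcF := cne hc
  have h2c : (2 * c : 𝓞 F) ≠ 0 := mul_ne_zero two_ne_zero hc
  have hf1 := finite_quot h2c
  have hf2 : Finite (𝓞 F ⧸ C) := Ideal.finiteQuotientOfFreeOfNeBot _ h.C0
  have hper : Per (Ideal.span {2 * c} * C) (fun z : 𝓞 F => ee ((z : F) ^ 2 / (4 * c * δ))) := by
    intro x y hxy
    rw [Ideal.mem_span_singleton_mul] at hxy
    obtain ⟨u, huC, hu⟩ := hxy
    have e : (x : F) = y + 2 * c * u := by
      have h1 := congrArg (fun z : 𝓞 F => (z : F)) hu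
      have e1 : (((x - y : 𝓞 F)) : F) = x - y := map_sub (algebraMap (𝓞 F) F) x y
      simp only [e1, cm, c2] at h1
      linear_combination -h1
    have e3 : (x : F) ^ 2 / (4 * c * δ) = (y : F) ^ 2 / (4 * c * δ) + ((y * u + c * u ^ 2 : 𝓞 F) : F) / δ := by
      simp only [cadd, cm, cp]
      rw [e]
      field_simp
      ring
    show ee _ = ee _
    rw [e3]
    exact h.ee_add_mem _ (C.add_mem (C.mul_mem_left _ huC)
      (C.mul_mem_left _ (Ideal.pow_mem_of_mem _ huC 2 two_pos)))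
  have hb : m * k ∈ Ideal.span {2 * c} := by
    rw [Ideal.mem_span_singleton]
    exact ⟨2 * e * k, by rw [hm]; ring⟩
  have hbs : m * k + s = 1 := by rw [add_comm]; exact hsk
  rw [PS_crtI hb hs hbs hper]
  have hgper : Per C (fun y : 𝓞 F => ee (((c * y ^ 2 : 𝓞 F) : F) / δ)) := by
    intro x y hxy
    have h1 := h.kr.per (c * x ^ 2) (c * y ^ 2) (by
      have : c * x ^ 2 - c * y ^ 2 = c * (x + y) * (x - y) := by ring
      rw [this]
      exact C.mul_mem_left _ hxy)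
    exact h1
  have hu : (2 * e * k) * (2 * c) - 1 ∈ C := by
    have : (2 * e * k) * (2 * c) - 1 = -s := by
      rw [hm] at hsk
      linear_combination hsk
    rw [this]
    exact C.neg_mem hs
  have h1 : GQ C (fun x => ee (((c * x : 𝓞 F) : F) / δ)) =
      PS C (fun y : 𝓞 F => ee (((c * (2 * e * k * y) ^ 2 : 𝓞 F) : F) / δ)) := by
    unfold GQ
    exact (PS_mul hgper hu).symm
  rw [h1]
  unfold HH
  rw [mul_comm (PS C _), ← PS_const_mul]
  refine PS_congr fun y => ?_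
  rw [mul_comm _ (ee _), ← PS_const_mul]
  refine PS_congr fun z => ?_
  have e1 : ((m * k * y + s * z : 𝓞 F) : F) ^ 2 / (4 * c * δ) =
      ((c * (2 * e * k * y) ^ 2 : 𝓞 F) : F) / δ +
      ((1 : 𝓞 F) : F) * (z : F) ^ 2 / (4 * c * (δ / (s : F) ^ 2)) +
      ((2 * e * k * y * z * s : 𝓞 F) : F) / δ := by
    rw [hm]
    simp only [cm, cadd, c2, cp, c4, c1]
    field_simp
    ring
  show ee _ = _
  rw [e1, h.ee_add_mem _ (C.mul_mem_left _ hs), ee_add]

lemma not_unit_two_mul (x : 𝓞 F) : ¬ IsUnit (2 * x) := by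
  intro h1
  have h2 : IsUnit (2 : 𝓞 F) := isUnit_of_dvd_unit (Dvd.intro _ rfl) h1
  have h3 : IsUnit (Algebra.norm ℤ (2 : 𝓞 F)) := h2.map _
  have h4 : (2 : 𝓞 F) = algebraMap ℤ (𝓞 F) 2 := by rw [map_ofNat]
  rw [h4, Algebra.norm_algebraMap, isUnit_pow_iff (Module.finrank_pos).ne',
    Int.isUnit_iff] at h3
  omega

/-- **Reciprocity without a condition on the different.** -/
theorem recip_W {a : F} (ha : a ^ 2 = -3) {r : ℕ} (hF : Module.finrank ℚ F = 2 * r)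
    {d β : 𝓞 F} (hd0 : d ≠ 0) (hβ0 : β ≠ 0) (hd2 : IsCoprime d 2)
    (hdβ : IsCoprime d β) (hsq : ∃ s : 𝓞 F, 4 ∣ d - s ^ 2) :
    ∃ δ : F, IsDw δ (4 * (d * β)) ∧ HH δ 1 β ≠ 0 ∧
      Pos (jac (Ideal.span {d}) β * HH δ d β / HH δ 1 β) ∧
      (IsCoprime β 2 → HH δ d β = jac (Ideal.span {β}) d * HH δ 1 β) := by
  set m : 𝓞 F := 4 * (d * β) with hm
  have h40 : (4 : 𝓞 F) ≠ 0 := by norm_num
  have hm0 : m ≠ 0 := mul_ne_zero h40 (mul_ne_zero hd0 hβ0)
  have hmu : ¬ IsUnit m := by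
    have : m = 2 * (2 * (d * β)) := by rw [hm]; ring
    rw [this]
    exact not_unit_two_mul _
  obtain ⟨δ0, C, hW, hC⟩ := exists_W (M := Ideal.span {m}) (by
    rw [Ideal.zero_eq_bot, Ne, Ideal.span_singleton_eq_bot]; exact hm0) (by
    rw [Ideal.one_eq_top, Ne, Ideal.span_singleton_eq_top]; exact hmu)
  obtain ⟨s, hs, j, hj, hsj⟩ := (Ideal.isCoprime_iff_exists).1 hC
  rw [Ideal.mem_span_singleton] at hj
  obtain ⟨k, rfl⟩ := hj
  have hs0 : s ≠ 0 := by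
    rintro rfl
    rw [zero_add] at hsj
    exact hmu (IsUnit.of_mul_eq_one _ hsj)
  have hδ := hW.isDw hs hs0 hsj
  set δ : F := δ0 / (s : F) ^ 2 with hδdef
  -- coprimality with `C`
  have hcop : ∀ c : 𝓞 F, c ∣ m → IsCoprime (Ideal.span {c}) C := by
    rintro c ⟨e, he⟩
    have h1 : IsCoprime (Ideal.span {m}) C := hC.symm
    rw [he, ← Ideal.span_singleton_mul_span_singleton] at h1
    exact h1.of_mul_left_left
  have h2C : IsCoprime (Ideal.span {(2 : 𝓞 F)}) C := hcop 2 ⟨2 * (d * β), by rw [hm]; ring⟩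
  set K0 : ℂ := GQ C (fun x : 𝓞 F => ee ((x : F) / δ0)) with hK0
  have hKc : ∀ c : 𝓞 F, c ∣ m → GQ C (fun x => ee (((c * x : 𝓞 F) : F) / δ0)) = jac C c * K0 := by
    intro c hc
    exact GQ_jac hW.C0 h2C hW.kr (hcop c hc)
  have hK1 : GQ C (fun x => ee ((((1 : 𝓞 F) * x : 𝓞 F) : F) / δ0)) = K0 := by
    simp only [one_mul]
    rfl
  have hdm : d ∣ m := ⟨4 * β, by rw [hm]; ring⟩
  have hβm : β ∣ m := ⟨4 * d, by rw [hm]; ring⟩
  have hKβd : GQ C (fun x => ee ((((β * d) * x : 𝓞 F) : F) / δ0)) = jac C β * (jac C d * K0) := by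
    have h1 := GQ_jac hW.C0 h2C (hW.kr.mul (hcop d hdm)) (hcop β hβm)
    rw [← hKc d hdm, ← h1]
    unfold GQ
    refine PS_congr fun y => ?_
    show ee _ = ee _
    congr 2
    have : β * d * y ^ 2 = d * (β * y ^ 2) := by ring
    rw [this]
  have hpos : ∀ c e : 𝓞 F, c ≠ 0 → m = 4 * c * e →
      Pos (GQ C (fun x => ee (((c * x : 𝓞 F) : F) / δ0)) * HH δ 1 c) := by
    intro c e hc hce
    rw [hδdef, ← P_split hW hs hs0 hsj hc hce]
    exact gauss_posC ha hF hW hc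
  obtain ⟨s', hs'⟩ := hsq
  have hs2 : IsCoprime s' 2 := by
    obtain ⟨k, hk⟩ := hs'
    obtain ⟨p, q, hpq⟩ := hd2
    exact ⟨p * s', 2 * p * k + q, by linear_combination hpq - p * hk⟩
  have hh : ∀ u : 𝓞 F, HH δ (d * u) 1 = HH δ u 1 := by
    intro u
    obtain ⟨k, hk⟩ := hs'
    exact (hδ.HH_cong ⟨k * u, by linear_combination u * hk⟩).trans (hδ.HH_sq hs2)
  have hone : ∀ c : 𝓞 F, c ≠ 0 → IsCoprime c 2 → ∀ u, HH δ u c = gg δ u c * HH δ (u * c) 1 := by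
    intro c hc hc2 u
    have h1 := hδ.HH_mul u (one_ne_zero) hc (by rw [mul_one]; exact hc2.symm)
    rw [one_mul, mul_one] at h1
    exact h1
  have P1 : Pos (K0 * HH δ 1 1) := by
    have := hpos 1 (d * β) one_ne_zero (by rw [hm]; ring)
    rwa [hK1] at this
  have Pd : Pos (jac C d * gg δ 1 d) := by
    have h2 := hpos d β hd0 (by rw [hm]; ring)
    rw [hKc d hdm, hone d hd0 hd2, one_mul] at h2
    have h3 := hh 1
    rw [mul_one] at h3
    rw [h3] at h2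
    have h4 := h2.div P1
    have hne := P1.ne
    have hn1 := left_ne_zero_of_mul hne
    have hn2 := right_ne_zero_of_mul hne
    have e : jac C d * K0 * (gg δ 1 d * HH δ 1 1) / (K0 * HH δ 1 1) = jac C d * gg δ 1 d := by
      field_simp
    rwa [e] at h4
  have Pβ : Pos (jac C β * K0 * HH δ 1 β) := by
    have h2 := hpos β d hβ0 (by rw [hm]; ring)
    rwa [hKc β hβm] at h2
  have hβne : HH δ 1 β ≠ 0 := right_ne_zero_of_mul Pβ.ne
  refine ⟨δ, hδ, hβne, ?_, fun hβ2 => ?_⟩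
  · have h2 := hpos (β * d) 1 (mul_ne_zero hβ0 hd0) (by rw [hm]; ring)
    rw [hKβd, hδ.HH_mul 1 hβ0 hd0 (IsCoprime.mul_left hd2.symm hdβ.symm), one_mul, one_mul,
      hδ.gg_jac hd0 hdm hd2 hdβ.symm] at h2
    have h4 := (h2.div Pβ).div Pd
    have n1 := left_ne_zero_of_mul Pβ.ne
    have n2 := left_ne_zero_of_mul n1
    have n3 := right_ne_zero_of_mul n1
    have n4 := left_ne_zero_of_mul Pd.ne
    have n5 := right_ne_zero_of_mul Pd.ne
    have e : jac C β * (jac C d * K0) * (jac (Ideal.span {d}) β * gg δ 1 d * HH δ d β) /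
        (jac C β * K0 * HH δ 1 β) / (jac C d * gg δ 1 d) =
        jac (Ideal.span {d}) β * HH δ d β / HH δ 1 β := by
      field_simp
    rwa [e] at h4
  · rw [hone β hβ0 hβ2, hone β hβ0 hβ2, hδ.gg_jac hβ0 hβm hβ2 hdβ, hh, one_mul]
    ring

end Pool.Agent.K7.H70.RC
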