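import Pool.Agent.K7.H70.RC.E
import Pool.Agent.R430.Q8

/-!
# The dyadic part of the Gauss sums, general additive characters
-/

set_option autoImplicit false
set_option linter.unusedSectionVars false

open NumberField

namespace Pool.Agent.K7.H70.RC

open Pool.Agent.R430
open Pool.Agent.Y688.QRec

variable {F : Type} [Field F] [NumberField F]

lemma quad_split' {δ : F} {m : 𝓞 F} (hδ : IsDw δ m) {I J : Ideal (𝓞 F)} {b c : 𝓞 F} (hb : b ∈ I)
    (hc : c ∈ J) (hbc : b + c = 1) [Finite (𝓞 F ⧸ I)] [Finite (𝓞 F ⧸ J)] {θ : F}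
    (hper : Per (I * J) (fun y : 𝓞 F => ee (θ * (y : F) ^ 2 / δ)))
    (h2 : ∃ x : 𝓞 F, (x : F) = 2 * θ * (b * c : 𝓞 F)) :
    GS δ (I * J) θ = GS δ J (θ * (b : F) ^ 2) * GS δ I (θ * (c : F) ^ 2) := by
  obtain ⟨l, hl⟩ := h2
  unfold GS
  rw [PS_crtI hb hc hbc hper]
  rw [mul_comm (PS J _), ← PS_const_mul]
  refine PS_congr fun y => ?_
  rw [mul_comm _ (ee _), ← PS_const_mul]
  refine PS_congr fun z => ?_
  have e : θ * ((b * y + c * z : 𝓞 F) : F) ^ 2 / δ = θ * (b : F) ^ 2 * (y : F) ^ 2 / δ +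
      θ * (c : F) ^ 2 * (z : F) ^ 2 / δ + ((l * (y * z) : 𝓞 F) : F) / δ := by
    simp only [cm, cadd, hl]
    ring
  rw [e, hδ.ee_add, Pool.Agent.Y688.QRec.ee_add]

lemma GS_jac' {δ : F} {m : 𝓞 F} (hδ : IsDw δ m) {I : Ideal (𝓞 F)} (hI : I ≠ 0)
    (h2 : IsCoprime (Ideal.span {(2 : 𝓞 F)}) I) {θ : F} (h : Cnd I θ)
    (hm : ∃ x : 𝓞 F, (x : F) = m * θ) {β : 𝓞 F}
    (hβ : IsCoprime (Ideal.span {β}) I) : GS δ I (θ * β) = jac I β * GS δ I θ := by
  have hkr : Kr I (fun x : 𝓞 F => ee (θ * (x : F) / δ)) := by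
    refine ⟨fun x y => ?_, fun z => ⟨fun hz w => ?_, fun hw => ?_⟩⟩
    · show ee _ = ee _ * ee _
      rw [← Pool.Agent.Y688.QRec.ee_add, cadd, mul_add, add_div]
    · obtain ⟨x, hx⟩ := (h z).1 hz
      have e : θ * ((z * w : 𝓞 F) : F) / δ = ((x * w : 𝓞 F) : F) / δ := by
        simp only [cm, hx]
        ring
      rw [e, hδ.int]
    · obtain ⟨y, hy⟩ := hm
      rw [h]
      refine hδ.mem (θ * z) ⟨y * z, by rw [cm, hy]; ring⟩ fun w => ?_
      rw [← hw w]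
      congr 1
      rw [cm]
      ring
  have h1 := GQ_jac hI h2 hkr hβ
  have e1 : GQ I (fun x : 𝓞 F => ee (θ * ((β * x : 𝓞 F) : F) / δ)) = GS δ I (θ * β) := by
    unfold GQ GS
    refine PS_congr fun y => ?_
    simp only [cm, cp]
    rw [mul_assoc]
  have e2 : GQ I (fun x : 𝓞 F => ee (θ * (x : F) / δ)) = GS δ I θ := by
    unfold GQ GS
    refine PS_congr fun y => ?_
    simp only [cp]
  rw [e1, e2] at h1
  exact h1

/-- the dyadic symbol -/
lemma dyadic_char' {δ : F} {m : 𝓞 F} (hδ : IsDw δ m) {P : Ideal (𝓞 F)} (hP : P.IsPrime) (hP0 : P ≠ ⊥)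
    (h2P : (2 : 𝓞 F) ∈ P) {η : F} (h1 : ∀ z ∈ P, ∃ x : 𝓞 F, (x : F) = η * z)
    (h2 : ¬ ∃ x : 𝓞 F, (x : F) = η) (hm : ∃ x : 𝓞 F, (x : F) = m * η) {f : ℕ} (hf : Nat.card (𝓞 F ⧸ P) = 2 ^ f) (a : 𝓞 F) :
    ∃ c : 𝓞 F, (∀ z : 𝓞 F, ee (η * (a * z ^ 2 : 𝓞 F) / δ) = ee (η * (c * z : 𝓞 F) / δ)) ∧
      ((∑ i ∈ Finset.range f, a ^ 2 ^ i ∈ P → ee (η * (c ^ 2 : 𝓞 F) / δ) = 1) ∧
       (∑ i ∈ Finset.range f, a ^ 2 ^ i ∉ P → ee (η * (c ^ 2 : 𝓞 F) / δ) = -1 ∧
        ∑ i ∈ Finset.range f, a ^ 2 ^ i - 1 ∈ P)) := by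
  classical
  have hmax : P.IsMaximal := hP.isMaximal hP0
  have hfin : Finite (𝓞 F ⧸ P) := Ideal.finiteQuotientOfFreeOfNeBot P hP0
  let _ : Field (𝓞 F ⧸ P) := Ideal.Quotient.field _
  let _ : Fintype (𝓞 F ⧸ P) := Fintype.ofFinite _
  set φ := Ideal.Quotient.mk P with hφdef
  have hφ : Function.Surjective φ := Ideal.Quotient.mk_surjective
  have hmk : ∀ α : 𝓞 F, φ α = 0 ↔ α ∈ P := fun α => Ideal.Quotient.eq_zero_iff_mem
  have hchar : CharP (𝓞 F ⧸ P) 2 := by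
    have h3 : (2 : 𝓞 F ⧸ P) = 0 := by
      have : φ 2 = 0 := (hmk 2).2 h2P
      rwa [map_ofNat] at this
    exact CharTwo.of_one_ne_zero_of_two_eq_zero one_ne_zero h3
  have hcard : Fintype.card (𝓞 F ⧸ P) = 2 ^ f := by rw [← Nat.card_eq_fintype_card, hf]
  let inv : 𝓞 F ⧸ P → 𝓞 F := Function.surjInv hφ
  have hinv : ∀ x, φ (inv x) = x := Function.surjInv_eq hφ
  let ψ : 𝓞 F ⧸ P → ℂ := fun x => ee (η * (inv x : F) / δ)
  have hψ : ∀ x : 𝓞 F, ψ (φ x) = ee (η * (x : F) / δ) := by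
    intro x
    have h3 : φ (inv (φ x) - x) = 0 := by rw [map_sub, hinv, sub_self]
    rw [hmk] at h3
    obtain ⟨c, hc⟩ := h1 _ h3
    show ee (η * (inv (φ x) : F) / δ) = _
    have e : η * ((inv (φ x) : 𝓞 F) : F) / δ = η * (x : F) / δ + (c : F) / δ := by
      have e2 : (((inv (φ x) - x : 𝓞 F)) : F) = (inv (φ x) : F) - x := map_sub (algebraMap (𝓞 F) F) _ _
      rw [hc, e2]
      ring
    rw [e, hδ.ee_add]
  have hadd : ∀ x y, ψ (x + y) = ψ x * ψ y := by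
    intro x y
    obtain ⟨x, rfl⟩ := hφ x
    obtain ⟨y, rfl⟩ := hφ y
    rw [← map_add, hψ, hψ, hψ, ← Pool.Agent.Y688.QRec.ee_add, cadd, ← add_div, mul_add]
  have h0 : ψ 0 = 1 := by
    have := hψ 0
    rw [map_zero] at this
    rw [this]
    have e0 : ((0 : 𝓞 F) : F) = 0 := map_zero (algebraMap (𝓞 F) F)
    rw [e0, mul_zero, zero_div, ee_zero]
  have hne : ∃ x, ψ x ≠ 1 := by
    by_contra hcon
    push Not at hcon
    apply h2
    exact hδ.mem η hm fun w => by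
      rw [← hψ]
      exact hcon (φ w)
  obtain ⟨c, hc1, hc2, hc3⟩ := field_two hcard ψ h0 hadd hne (φ a)
  obtain ⟨c, rfl⟩ := hφ c
  have hsum : φ (∑ i ∈ Finset.range f, a ^ 2 ^ i) = ∑ i ∈ Finset.range f, (φ a) ^ 2 ^ i := by
    rw [map_sum]
    exact Finset.sum_congr rfl fun i _ => map_pow _ _ _
  refine ⟨c, fun z => ?_, fun h => ?_, fun h => ?_⟩
  · rw [← hψ, ← hψ, map_mul, map_mul, map_pow]
    exact hc1 (φ z)
  · rw [← hψ, map_pow]
    apply hc2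
    rw [← hsum, hmk]
    exact h
  · have h3 : ∑ i ∈ Finset.range f, (φ a) ^ 2 ^ i ≠ 0 := by
      rw [← hsum, Ne, hmk]
      exact h
    obtain ⟨h4, h5⟩ := hc3 h3
    refine ⟨by rw [← hψ, map_pow]; exact h4, ?_⟩
    rw [← hmk, map_sub, map_one, hsum, h5, sub_self]

theorem dyadic_G' {δ : F} {m : 𝓞 F} (hδ : IsDw δ m) {P C : Ideal (𝓞 F)} (hP : P.IsPrime) (hP0 : P ≠ ⊥)
    (h2P : (2 : 𝓞 F) ∈ P) (hC0 : C ≠ 0) (hC2 : IsCoprime (Ideal.span {(2 : 𝓞 F)}) C)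
    {β d s a' s' : 𝓞 F} (hβm : 4 * β ∣ m) (hβ : Ideal.span {β} = P * C) (hd : d = s ^ 2 + 4 * a')
    (hs' : s' * s - 1 ∈ Ideal.span {(2 : 𝓞 F)} * P) (hdC : IsCoprime (Ideal.span {d}) C) {f : ℕ}
    (hf : Nat.card (𝓞 F ⧸ P) = 2 ^ f) :
    (∑ i ∈ Finset.range f, (a' * s' ^ 2) ^ 2 ^ i ∈ P → HH δ d β = jac C d * HH δ 1 β) ∧
    (∑ i ∈ Finset.range f, (a' * s' ^ 2) ^ 2 ^ i ∉ P → HH δ d β = -(jac C d * HH δ 1 β) ∧
      ∑ i ∈ Finset.range f, (a' * s' ^ 2) ^ 2 ^ i - 1 ∈ P) := by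
  have hβ0 : β ≠ 0 := by
    rintro rfl
    rw [Ideal.span_singleton_eq_bot.2 rfl] at hβ
    exact mul_ne_zero hP0 hC0 hβ.symm
  have hβF := cne hβ0
  have hδF := hδ.1
  set A2 : Ideal (𝓞 F) := Ideal.span {(2 : 𝓞 F)} with hA2
  set T := A2 * P with hT
  have hA20 : A2 ≠ 0 := by
    rw [hA2, Ideal.zero_eq_bot, Ne, Ideal.span_singleton_eq_bot]
    exact two_ne_zero
  have hT0 : T ≠ 0 := mul_ne_zero hA20 hP0
  have hfT : Finite (𝓞 F ⧸ T) := Ideal.finiteQuotientOfFreeOfNeBot _ hT0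
  have hfC : Finite (𝓞 F ⧸ C) := Ideal.finiteQuotientOfFreeOfNeBot _ hC0
  have hA2P : A2 ≤ P := (Ideal.span_singleton_le_iff_mem P).2 h2P
  have hTA : T ≤ A2 := Ideal.mul_le_left
  have hTP : T ≤ P := Ideal.mul_le_right
  have hspan : Ideal.span {2 * β} = T * C := by
    rw [hT, mul_assoc, ← hβ, hA2, Ideal.span_singleton_mul_span_singleton]
  have hPC : IsCoprime P C := by
    rw [Ideal.isCoprime_iff_sup_eq] at hC2 ⊢
    exact top_le_iff.1 (hC2.symm.le.trans (sup_le_sup_right hA2P _))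
  have hTC : IsCoprime T C := IsCoprime.mul_left hC2 hPC
  obtain ⟨t, ht, b, hb, htb⟩ := (Ideal.isCoprime_iff_exists).1 hTC
  -- the divisibilities
  have F1 : ∀ z ∈ C, ∃ x : 𝓞 F, t ^ 2 * z = 4 * β * x := by
    intro z hz
    have h1 : t * (t * z) ∈ A2 * (T * C) := by
      refine Ideal.mul_mem_mul (hTA ht) (Ideal.mul_mem_mul ht hz)
    rw [← hspan, hA2, Ideal.span_singleton_mul_span_singleton, Ideal.mem_span_singleton] at h1
    obtain ⟨x, hx⟩ := h1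
    exact ⟨x, by linear_combination hx⟩
  have F2 : ∀ p ∈ P, ∃ x : 𝓞 F, b ^ 2 * p = β * x := by
    intro p hp
    have h1 : b * p * b ∈ P * C := Ideal.mul_mem_mul (P.mul_mem_left _ hp) hb
    rw [← hβ, Ideal.mem_span_singleton] at h1
    obtain ⟨x, hx⟩ := h1
    exact ⟨x, by linear_combination hx⟩
  have F3 : ∀ y : 𝓞 F, ∀ k ∈ T, ∃ x : 𝓞 F, b ^ 2 * (2 * y * k + k ^ 2) = 4 * β * x := by
    intro y k hk
    have h1 : k * b ∈ T * C := Ideal.mul_mem_mul hk hb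
    rw [← hspan, Ideal.mem_span_singleton] at h1
    obtain ⟨x, hx⟩ := h1
    have h2 := hTA hk
    rw [hA2, Ideal.mem_span_singleton] at h2
    obtain ⟨k', hk'⟩ := h2
    exact ⟨x * b * (y + k'), by
      linear_combination b * (2 * y + k) * hx + 2 * β * x * b * hk'⟩
  have F4 : ¬ ∃ x : 𝓞 F, b ^ 2 = β * x := by
    rintro ⟨x, hx⟩
    have h1 : b ^ 2 ∈ P := by
      have h2 : b ^ 2 ∈ P * C := by
        rw [← hβ, Ideal.mem_span_singleton]
        exact ⟨x, hx⟩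
      exact Ideal.mul_le_left h2
    have h3 := hP.mem_of_pow_mem _ h1
    apply hP.ne_top
    rw [Ideal.eq_top_iff_one, ← htb]
    exact P.add_mem (hTP ht) h3
  -- splitting of the sums
  have hHH : ∀ u : 𝓞 F, HH δ u β = GS δ (T * C) ((u : F) / (4 * β)) := by
    intro u
    unfold HH GS
    rw [hspan]
    refine PS_congr fun y => ?_
    congr 1
    field_simp
  have hper : ∀ u : 𝓞 F, Per (T * C) (fun y : 𝓞 F => ee ((u : F) / (4 * β) * (y : F) ^ 2 / δ)) := by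
    intro u
    have h1 := hδ.HH_per u hβ0
    rw [hspan] at h1
    intro x y hxy
    have h2 := h1 x y hxy
    have e : ∀ x : 𝓞 F, (u : F) / (4 * β) * (x : F) ^ 2 / δ = (u : F) * (x : F) ^ 2 / (4 * β * δ) := by
      intro x
      field_simp
    show ee _ = ee _
    rw [e, e]
    exact h2
  obtain ⟨tb, htb2⟩ : ∃ x : 𝓞 F, t * b = 2 * β * x := by
    have h1 : t * b ∈ T * C := Ideal.mul_mem_mul ht hb
    rw [← hspan, Ideal.mem_span_singleton] at h1
    exact h1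
  have hsplit : ∀ u : 𝓞 F, HH δ u β = GS δ C ((u : F) / (4 * β) * (t : F) ^ 2) *
      GS δ T ((u : F) / (4 * β) * (b : F) ^ 2) := by
    intro u
    rw [hHH]
    refine quad_split' hδ ht hb htb (hper u) ⟨u * tb, ?_⟩
    rw [htb2]
    simp only [cm, c2]
    field_simp
    ring
  -- the part at `C`
  have hCnd : Cnd C (1 / (4 * (β : F)) * (t : F) ^ 2) := by
    intro z
    constructor
    · intro hz
      obtain ⟨x, hx⟩ := F1 z hz
      refine ⟨x, ?_⟩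
      have h1 := congrArg (fun w : 𝓞 F => (w : F)) hx
      simp only [cm, cp, c4] at h1
      field_simp
      linear_combination -h1
    · rintro ⟨x, hx⟩
      have h1 : t ^ 2 * z = 4 * β * x := by
        apply RingOfIntegers.ext
        simp only [cm, cp, c4]
        rw [hx]
        field_simp
      have hβC : β ∈ C := by
        have : β ∈ P * C := by
          rw [← hβ]
          exact Ideal.mem_span_singleton_self β
        exact Ideal.mul_le_right this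
      have h2 : z = 4 * x * β + (1 + t) * z * b := by
        have hb' : b = 1 - t := by linear_combination htb
        rw [hb']
        linear_combination h1
      rw [h2]
      exact C.add_mem (C.mul_mem_left _ hβC) (C.mul_mem_left _ hb)
  have hmC : ∃ x : 𝓞 F, (x : F) = m * (1 / (4 * (β : F)) * (t : F) ^ 2) := by
    obtain ⟨e, he⟩ := hβm
    refine ⟨e * t ^ 2, ?_⟩
    rw [he]
    simp only [cm, cp, c4]
    field_simp
  have hCpart : GS δ C ((d : F) / (4 * β) * (t : F) ^ 2) =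
      jac C d * GS δ C (1 / (4 * (β : F)) * (t : F) ^ 2) := by
    rw [← GS_jac' hδ hC0 hC2 hCnd hmC hdC]
    congr 1
    field_simp
  -- the part at two
  set G : 𝓞 F → 𝓞 F → ℂ := fun u y => ee ((u : F) / (4 * β) * (b : F) ^ 2 * (y : F) ^ 2 / δ) with hG
  have hGper : ∀ u, Per T (G u) := by
    intro u x y hxy
    obtain ⟨k, hk, rfl⟩ := of_sub_mem hxy
    obtain ⟨l, hl⟩ := F3 y k hk
    have h1 := congrArg (fun w : 𝓞 F => (w : F)) hl
    simp only [cm, cp, c4, c2, cadd] at h1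
    show ee _ = ee _
    have e : (u : F) / (4 * β) * (b : F) ^ 2 * ((y + k : 𝓞 F) : F) ^ 2 / δ =
        (u : F) / (4 * β) * (b : F) ^ 2 * (y : F) ^ 2 / δ + ((u * l : 𝓞 F) : F) / δ := by
      simp only [cm, cadd]
      field_simp
      linear_combination (u : F) * h1
    rw [e, hδ.ee_add]
  obtain ⟨c, hc1, hc2, hc3⟩ := dyadic_char' hδ hP hP0 h2P (η := (b : F) ^ 2 / β) (fun z hz => by
      obtain ⟨x, hx⟩ := F2 z hz
      refine ⟨x, ?_⟩
      have h1 := congrArg (fun w : 𝓞 F => (w : F)) hx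
      simp only [cm, cp] at h1
      field_simp
      linear_combination -h1) (by
      rintro ⟨x, hx⟩
      apply F4
      refine ⟨x, ?_⟩
      apply RingOfIntegers.ext
      simp only [cm, cp]
      rw [hx]
      field_simp) (by
      obtain ⟨e, he⟩ := hβm
      refine ⟨4 * e * b ^ 2, ?_⟩
      rw [he]
      simp only [cm, cp, c4]
      field_simp) hf (a' * s' ^ 2)
  have hpt : ∀ y : 𝓞 F, G d (s' * y) = G 1 y * ee ((b : F) ^ 2 / β * ((c * y : 𝓞 F) : F) / δ) := by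
    intro y
    have h1 : G 1 (s' * s * y) = G 1 y := hGper 1 _ _ (by
      have : s' * s * y - y = (s' * s - 1) * y := by ring
      rw [this]
      exact T.mul_mem_right _ hs')
    rw [← h1, ← hc1 y]
    show ee _ = ee _ * ee _
    rw [← ee_add]
    congr 1
    rw [hd]
    simp only [cm, cp, c4, c1, cadd]
    field_simp
  have hshift : ∀ y : 𝓞 F, G 1 (y + 2 * c) = ee ((b : F) ^ 2 / β * ((c ^ 2 : 𝓞 F) : F) / δ) *
      (G 1 y * ee ((b : F) ^ 2 / β * ((c * y : 𝓞 F) : F) / δ)) := by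
    intro y
    show ee _ = ee _ * (ee _ * ee _)
    rw [← Pool.Agent.Y688.QRec.ee_add, ← ee_add]
    congr 1
    simp only [cm, cp, c2, c1, cadd]
    field_simp
    ring
  have hTpart : PS T (G 1) = ee ((b : F) ^ 2 / β * ((c ^ 2 : 𝓞 F) : F) / δ) * PS T (G d) := by
    rw [← PS_shift (hGper 1) (2 * c), PS_congr hshift, PS_const_mul]
    congr 1
    rw [← PS_mul (hGper d) hs']
    exact (PS_congr hpt).symm
  have hTd : GS δ T ((d : F) / (4 * β) * (b : F) ^ 2) = PS T (G d) := rfl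
  have hT1 : GS δ T (((1 : 𝓞 F) : F) / (4 * β) * (b : F) ^ 2) = PS T (G 1) := rfl
  have h1' : HH δ 1 β = GS δ C (1 / (4 * (β : F)) * (t : F) ^ 2) * PS T (G 1) := by
    rw [hsplit 1, hT1, c1]
  have hd' : HH δ d β = jac C d * GS δ C (1 / (4 * (β : F)) * (t : F) ^ 2) * PS T (G d) := by
    rw [hsplit d, hTd, hCpart]
  refine ⟨fun h => ?_, fun h => ?_⟩
  · rw [hc2 h, one_mul] at hTpart
    rw [h1', hd', hTpart]
    ring
  · obtain ⟨h3, h4⟩ := hc3 h
    refine ⟨?_, h4⟩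
    rw [h3] at hTpart
    rw [h1', hd', hTpart]
    ring

end Pool.Agent.K7.H70.RC
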